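import Pool.Agent.Work.MP_db9399_da.Local2

/-!
# MP_db9399, B15 (iv): the local theorems LOCN3, LOCB3 (helper72)

Differences to `Local2.lean`:
* no bound `K` for the signed numbers, only `≤ θ d`, and the `ℓ¹` bound `sl1` over the last palettes
  (every unit is a missed vertex); the sum over `Q (!i) ∪ P2` is bounded in the hypothesis of LOCN3 and,
  together with `T1`, in `LB3.sgT`;
* LOCB3: the own colours are GIVEN up to a binary choice. `c0 v ∈ Q (pt v)` basic own colour; the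
  vertices of `T1` have the own colour `c1 v ∈ P1` (they balance the rounds of `P1`), the vertices of
  `T2` (side `false`) have the own colour `c0 v` or `c1 v ∈ P2 ∪ Q (!pt v)`: the local theorem chooses.
  So `A`, `Th`, `Sp`, `Ze`, .. are gone: everything about forbidden own colours (thin and outer
  neighbours, own colours of `V0`, lists) is decided before, for all pieces at once;
* the number of missed vertices is only bounded by `unm`: every vertex has `ρ d` neighbours in its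
  part which are in neither `T1` nor `T2`.
-/

set_option autoImplicit false

namespace Pool.Agent.Work.MP_db9399_da

open Finset Classical
open Pool.Agent.Work.MP_db9399_all (nb)
open Pool.Agent.Work.MP_db9399_nc (nn)
open Pool.Agent.Work.MP_db9399_lt (us)

universe u

section defs
variable {V : Type u} [Fintype V]

/-- Common input of LOCN3 and LOCB3 (`LI` with real bounds; `η` is the `ℓ¹` bound). -/
structure LI3 (G : SimpleGraph V) (d : ℕ) (C ρ π κ θ η : ℝ) (sd pt : V → Bool)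
    (Q : Bool → Finset ℕ) (P2 : Finset ℕ) (F : V → Finset ℕ) : Prop where
  VC : (Fintype.card V : ℝ) ≤ C * d
  Flt : ∀ v, ∀ b ∈ F v, b < d + 2
  Fx : ∀ v, ((F v).card : ℝ) ≤ θ * d
  load : ∀ b, ((us F b).card : ℝ) ≤ θ * d
  Qlt : ∀ i, Q i ⊆ range (d + 2)
  Plt : P2 ⊆ range (d + 2)
  QQ : Disjoint (Q false) (Q true)
  QP : ∀ i, Disjoint (Q i) P2
  Qc : ∀ i, κ * d ≤ ((Q i).card : ℝ) ∧ ((Q i).card : ℝ) ≤ 2 * κ * d
  Pc : π * d ≤ (P2.card : ℝ) ∧ (P2.card : ℝ) ≤ 2 * π * d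
  FQ : ∀ v, Disjoint (F v) (Q (pt v))
  sgQ : ∀ i, ∀ b ∈ Q (!i) ∪ P2, |((sgp F sd pt i b : ℤ) : ℝ)| ≤ θ * d
  sl1 : ∀ i, ∑ b ∈ Q (!i) ∪ P2, |((sgp F sd pt i b : ℤ) : ℝ)| ≤ η * d
  cutG : ∀ S : Finset V, ρ * S.card * (univ \ S).card ≤ ∑ v ∈ S, ((nb G v \ S).card : ℝ)
  cutP : ∀ i, ∀ S ⊆ prt pt i, ρ * S.card * (prt pt i \ S).card ≤
    ∑ v ∈ S, (((nb G v \ S) ∩ qtr sd pt (!(sd v)) i).card : ℝ)

/-- possible own colours of `v` -/
noncomputable def oc (c0 c1 : V → ℕ) (T1 T2 : Finset V) (v : V) : Finset ℕ :=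
  if v ∈ T1 then {c1 v} else if v ∈ T2 then {c0 v, c1 v} else {c0 v}

/-- Additional input of LOCB3. `F` does not contain own colours. `EX`, `few`: the rounds of `P1` which
are not balanced by the own colours of `T1` (colours blocked on a whole side): there vertices are
missed which keep their basic own colour, each needs a partner in `T1 ∪ T2` on the other side
(`T2` is on the side `false`: it helps for misses on the side `true`). `n2`, `nQ`: enough vertices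
of `T2`. -/
structure LB3 (G : SimpleGraph V) (d : ℕ) (ρ θ : ℝ) (sd pt : V → Bool)
    (Q : Bool → Finset ℕ) (P2 : Finset ℕ) (F : V → Finset ℕ) (c0 c1 : V → ℕ)
    (T1 T2 : Finset V) : Prop where
  bip : ∀ v w, G.Adj v w → sd v ≠ sd w
  deg : ∀ v, (nb G v).card + (F v).card = d
  dgp : ∀ v i, |((nb G v ∩ prt pt i).card : ℝ) - d / 2| ≤ θ * d
  eqs : ∀ i, (qtr sd pt false i).card = (qtr sd pt true i).card
  siz : ∀ i, (qtr sd pt false i).card ≤ (qtr sd pt false (!i)).card + 1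
  T12 : Disjoint T1 T2
  c0Q : ∀ v, v ∉ T1 → c0 v ∈ Q (pt v)
  c1P : ∀ v ∈ T1, c1 v ∈ P1 d Q P2
  c2P : ∀ v ∈ T2, sd v = false ∧ c1 v ∈ P2 ∪ Q (!(pt v))
  c1F : ∀ v ∈ T1 ∪ T2, c1 v ∉ F v
  pc : ∀ v w, G.Adj v w → pt v = pt w → Disjoint (oc c0 c1 T1 T2 v) (oc c0 c1 T1 T2 w)
  T1c : ∀ b, ((T1.filter (fun v => c1 v = b)).card : ℝ) ≤ θ * d
  few : ∀ β, ((∑ b ∈ P1 d Q P2, need (Fo T1 c1 F) sd β b : ℕ) : ℝ) ≤ θ * d
  EX : ∀ β, ∑ b ∈ P1 d Q P2, need (Fo T1 c1 F) sd β b ≤ ((T1 ∪ T2) ∩ sid sd (!β)).card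
  sgT : ∀ i, |((T1 ∩ qtr sd pt false i).card : ℝ) - (T1 ∩ qtr sd pt true i).card -
    ((∑ b ∈ Q (!i) ∪ P2, sgp F sd pt i b : ℤ) : ℝ)| ≤ θ * d
  unm : ∀ v, ρ * d ≤ (((nb G v ∩ prt pt (pt v)) \ (T1 ∪ T2)).card : ℝ)
  n2 : ∀ i, ∀ b ∈ P2,
    2 ≤ ((T2.filter (fun v => pt v = i ∧ c1 v = b)).card : ℤ) + sgp F sd pt i b
  nQ : ∀ i, ∀ b ∈ Q (!i),
    0 ≤ ((T2.filter (fun v => pt v = i ∧ c1 v = b)).card : ℤ) + sgp F sd pt i b

end defs

/-- LOCN3: a piece of type N (own colours included in `F`), `LN` as in phase 1. -/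
def Stmt_LOCN3 : Prop :=
  ∀ C g ρ : ℝ, 1 ≤ C → 0 < g → 0 < ρ → ∃ π0 : ℝ, 0 < π0 ∧ ∀ π : ℝ, 0 < π → π ≤ π0 →
    ∃ κ0 : ℝ, 0 < κ0 ∧ ∀ κ : ℝ, 0 < κ → κ ≤ κ0 → ∃ (θ : ℝ) (d0 : ℕ), 0 < θ ∧
    ∀ {V : Type u} [Fintype V] (G : SimpleGraph V) (d : ℕ) (sd pt : V → Bool)
      (Q : Bool → Finset ℕ) (P2 : Finset ℕ) (F : V → Finset ℕ), d0 ≤ d →
      LI3 G d C ρ π κ θ (g / 100) sd pt Q P2 F → LN G d g ρ θ sd pt F →
      (∀ i, |((∑ b ∈ Q (!i) ∪ P2, sgp F sd pt i b : ℤ) : ℝ)| ≤ θ * d) →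
      ∃ t : V → V → ℕ, PEF G d F t

/-- LOCB3: a piece of type B, own colours given up to the choice at `T2`. -/
def Stmt_LOCB3 : Prop :=
  ∀ C ρ : ℝ, 1 ≤ C → 0 < ρ → ρ ≤ 1 → ∃ π0 : ℝ, 0 < π0 ∧ ∀ π : ℝ, 0 < π → π ≤ π0 →
    ∃ κ0 : ℝ, 0 < κ0 ∧ ∀ κ : ℝ, 0 < κ → κ ≤ κ0 → ∃ (θ : ℝ) (d0 : ℕ), 0 < θ ∧
    ∀ {V : Type u} [Fintype V] (G : SimpleGraph V) (d : ℕ) (sd pt : V → Bool)
      (Q : Bool → Finset ℕ) (P2 : Finset ℕ) (F : V → Finset ℕ) (c0 c1 : V → ℕ)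
      (T1 T2 : Finset V), d0 ≤ d →
      LI3 G d C ρ π κ θ (ρ / 100) sd pt Q P2 F → LB3 G d ρ θ sd pt Q P2 F c0 c1 T1 T2 →
      ∃ (c : V → ℕ) (t : V → V → ℕ), (∀ v, c v ∈ oc c0 c1 T1 T2 v) ∧
        PEF G d (fun v => insert (c v) (F v)) t

end Pool.Agent.Work.MP_db9399_da
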