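import Pool.Agent.Work.MP_db9399_iv_helper72.Stm
import Pool.Agent.Work.MP_db9399_iv_helper72.Local3

/-!
# The middle theorem of LOCB3 (helper72): statements
-/

set_option autoImplicit false

namespace Pool.Agent.Work.MP_db9399_iv_helper72

open Finset Classical
open Pool.Agent.Work.MP_db9399_da_helper72
open Pool.Agent.Work.MP_db9399_all (nb)
open Pool.Agent.Work.MP_db9399_lt (us)
open Pool.Agent.Work.MP_db9399_da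

universe u

section defs
variable {V : Type u} [Fintype V]

/-- Input of the middle theorem. `W b`: the vertices missed in the round `b ∈ P1`, `T1 ∪ Pf` their
union (`T1`: own colour `c1`; `Pf`: type P, with partners `N0` in `T1 ∪ Tp`; the vertices of
`Tp ⊆ T2` must get the own colour `c1`). -/
structure MI3 (G N0 : SimpleGraph V) (d : ℕ) (C ρ π κ θ : ℝ) (sd pt : V → Bool)
    (Q : Bool → Finset ℕ) (P2 : Finset ℕ) (F : V → Finset ℕ) (W : ℕ → Finset V)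
    (T1 T2 Tp Pf : Finset V) (c0 c1 : V → ℕ) : Prop where
  VC : (Fintype.card V : ℝ) ≤ C * d
  Vl : d + 2 ≤ Fintype.card V
  Flt : ∀ v, F v ⊆ range (d + 2)
  Fx : ∀ v, ((F v).card : ℝ) ≤ θ * d
  load : ∀ b, ((univ.filter fun v => b ∈ F v).card : ℝ) ≤ θ * d
  Qlt : ∀ i, Q i ⊆ range (d + 2)
  Plt : P2 ⊆ range (d + 2)
  QQ : Disjoint (Q false) (Q true)
  QP : ∀ i, Disjoint (Q i) P2
  Qc : ∀ i, κ * d ≤ ((Q i).card : ℝ) ∧ ((Q i).card : ℝ) ≤ 2 * κ * d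
  Pc : π * d ≤ (P2.card : ℝ) ∧ (P2.card : ℝ) ≤ 2 * π * d
  FQ : ∀ v, Disjoint (F v) (Q (pt v))
  cutG : ∀ S : Finset V, ρ * S.card * (Sᶜ.card : ℝ) ≤ (ee G S Sᶜ : ℝ)
  cutP : ∀ i, ∀ S ⊆ pr pt i, ρ * S.card * ((pr pt i \ S).card : ℝ) ≤
    (ee (crs G sd pt) S (pr pt i \ S) : ℝ)
  bip : ∀ v w, G.Adj v w → sd v ≠ sd w
  deg : ∀ v, dg G v univ + (F v).card = d
  crd : ∀ v, |(dg (crs G sd pt) v univ : ℝ) - d / 2| ≤ θ * d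
  eqs : ∀ i, (qt sd pt false i).card = (qt sd pt true i).card
  prl : ∀ i, Fintype.card V ≤ 4 * (pr pt i).card
  sgQ : ∀ i, ∀ b ∈ P2 ∪ Q (!i), |((sgp F sd pt i b : ℤ) : ℝ)| ≤ θ * d
  sl1 : ∀ i, ∑ b ∈ P2 ∪ Q (!i), |((sgp F sd pt i b : ℤ) : ℝ)| ≤ ρ / 100 * d
  WF : ∀ b ∈ PP d Q P2, ∀ v ∈ W b, b ∉ F v
  Wc : ∀ b ∈ PP d Q P2, ((W b).card : ℝ) ≤ θ * d
  bal : ∀ b ∈ PP d Q P2,
    ((univ.filter fun v => sd v = false) \ univ.filter fun v => b ∈ F v ∨ v ∈ W b).card =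
      ((univ.filter fun v => sd v = true) \ univ.filter fun v => b ∈ F v ∨ v ∈ W b).card
  one : ∀ b ∈ PP d Q P2, ∀ b' ∈ PP d Q P2, ∀ v, v ∈ W b → v ∈ W b' → b = b'
  TPW : ∀ v, (v ∈ T1 ∪ Pf ↔ ∃ b ∈ PP d Q P2, v ∈ W b)
  T1W : ∀ v ∈ T1, c1 v ∈ PP d Q P2 ∧ v ∈ W (c1 v)
  TP : Disjoint T1 Pf
  T2T : Disjoint T2 (T1 ∪ Pf)
  Pfc : (Pf.card : ℝ) ≤ θ * d
  sgn : ∀ i, |((∑ v ∈ (T1 ∪ Pf).filter (fun v => pt v = i), sgv (sd v) : ℤ) : ℝ) -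
    ((∑ b ∈ P2 ∪ Q (!i), sgp F sd pt i b : ℤ) : ℝ)| ≤ θ * d
  unm : ∀ v, ρ * d ≤ (((nb G v ∩ prt pt (pt v)) \ (T1 ∪ T2)).card : ℝ)
  Tp2 : Tp ⊆ T2
  Tpc : (Tp.card : ℝ) ≤ θ * d
  N0a : ∀ v w, N0.Adj v w → (crs G sd pt).Adj v w ∧
    ((v ∈ Pf ∧ w ∈ T1 ∪ Tp) ∨ (w ∈ Pf ∧ v ∈ T1 ∪ Tp))
  N0m : ∀ v, dg N0 v univ ≤ 1
  N0p : ∀ v ∈ Pf, ∃ w ∈ T1 ∪ Tp, N0.Adj v w
  c0Q : ∀ v, v ∉ T1 → c0 v ∈ Q (pt v)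
  c2P : ∀ v ∈ T2, sd v = false ∧ c1 v ∈ P2 ∪ Q (!(pt v))
  c2F : ∀ v ∈ T2, c1 v ∉ F v
  pc : ∀ v w, G.Adj v w → pt v = pt w → Disjoint (oc c0 c1 T1 T2 v) (oc c0 c1 T1 T2 w)
  n2 : ∀ i, ∀ b ∈ P2,
    2 ≤ ((T2.filter (fun v => pt v = i ∧ c1 v = b)).card : ℤ) + sgp F sd pt i b
  nQ : ∀ i, ∀ b ∈ Q (!i),
    0 ≤ ((T2.filter (fun v => pt v = i ∧ c1 v = b)).card : ℤ) + sgp F sd pt i b

end defs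

/-- the middle theorem -/
def Stmt_LOCM3 : Prop :=
  ∀ C ρ : ℝ, 1 ≤ C → 0 < ρ → ρ ≤ 1 → ∃ π0 : ℝ, 0 < π0 ∧ ∀ π : ℝ, 0 < π → π ≤ π0 →
    ∃ κ0 : ℝ, 0 < κ0 ∧ ∀ κ : ℝ, 0 < κ → κ ≤ κ0 → ∃ (θ : ℝ) (d0 : ℕ), 0 < θ ∧
    ∀ (V : Type u) [Fintype V] (G N0 : SimpleGraph V) (d : ℕ) (sd pt : V → Bool)
      (Q : Bool → Finset ℕ) (P2 : Finset ℕ) (F : V → Finset ℕ) (W : ℕ → Finset V)
      (T1 T2 Tp Pf : Finset V) (c0 c1 : V → ℕ), d0 ≤ d →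
      MI3 G N0 d C ρ π κ θ sd pt Q P2 F W T1 T2 Tp Pf c0 c1 →
      ∃ (c : V → ℕ) (t : V → V → ℕ), (∀ v, c v ∈ oc c0 c1 T1 T2 v) ∧
        PEF G d (fun v => insert (c v) (F v)) t

section defs
variable {V : Type u} [Fintype V]

/-- Input of MIS2C: `T2` are the vertices with an optional own colour `c1` (those of `Tp ⊆ T2` must get
it), `K` a bound for all `|qq|`, `Z i = Y_i \ (T1 ∪ Pf)`. -/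
structure M2C (H Fr N0 : SimpleGraph V) (d K : ℕ) (ρ κ δ : ℝ) (sd pt : V → Bool)
    (Q : Bool → Finset ℕ) (P2 : Finset ℕ) (F2 : V → Finset ℕ) (c1 : V → ℕ)
    (T1 T2 Tp Pf : Finset V) : Prop where
  Hc : ∀ v w, H.Adj v w → sd v ≠ sd w ∧ pt v = pt w
  FrH : ∀ v w, Fr.Adj v w → H.Adj v w
  Hd : ∀ v, sd v = false → ρ / 2 * d ≤ (dg H v (qtr sd pt true (pt v) \ (T1 ∪ Pf)) : ℝ)
  F2l : ∀ b ∈ P2 ∪ Q false ∪ Q true, ((us F2 b).card : ℝ) ≤ δ * d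
  qK : ∀ i, ∀ b ∈ P2 ∪ Q (!i), |qq F2 sd pt i b| + 2 * Tp.card ≤ (K : ℤ)
  tot : ∀ i, ∑ b ∈ P2 ∪ Q (!i), |((qq F2 sd pt i b : ℤ) : ℝ)| + Tp.card ≤ ρ / 8 * d
  fre : ∀ A' B' : Finset V, κ * ee H A' B' ≤ (ee Fr A' B' : ℝ) + δ * (d : ℝ) ^ 2
  frd : ∀ v i, κ * dg H v (qtr sd pt true i \ (T1 ∪ Pf)) ≤
    (dg Fr v (qtr sd pt true i \ (T1 ∪ Pf)) : ℝ) + δ * d
  hid : ∀ i, ∑ v ∈ (T1 ∪ Pf).filter (fun v => pt v = i), sgv (sd v) =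
    - ∑ b ∈ P2 ∪ Q (!i), qq F2 sd pt i b
  TP : Disjoint T1 Pf
  T2T : Disjoint T2 (T1 ∪ Pf)
  T2c : ∀ v ∈ T2, sd v = false ∧ c1 v ∈ P2 ∪ Q (!(pt v)) ∧ c1 v ∉ F2 v
  T2n : ∀ i, ∀ b ∈ P2 ∪ Q (!i),
    qq F2 sd pt i b ≤ ((T2.filter fun v => pt v = i ∧ c1 v = b).card : ℤ)
  Tp2 : Tp ⊆ T2
  N0a : ∀ v w, N0.Adj v w → H.Adj v w ∧ ((v ∈ Pf ∧ w ∈ T1 ∪ Tp) ∨ (w ∈ Pf ∧ v ∈ T1 ∪ Tp))
  N0m : ∀ v, dg N0 v univ ≤ 1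
  N0p : ∀ v ∈ Pf, ∃ w ∈ T1 ∪ Tp, N0.Adj v w

/-- Result of MIS2C. -/
structure M2CO (Fr N0 N1 : SimpleGraph V) (K : ℕ) (sd pt : V → Bool) (Q : Bool → Finset ℕ)
    (P2 : Finset ℕ) (F2 : V → Finset ℕ) (c1 : V → ℕ) (T1 T2 Tp Pf : Finset V)
    (W2 : ℕ → Finset V) : Prop where
  W : ∀ b, ∀ v ∈ W2 b, b ∈ P2 ∪ Q (!(pt v)) ∧ b ∉ F2 v ∧ v ∉ T1 ∧ v ∉ Pf
  one : ∀ b b' v, v ∈ W2 b → v ∈ W2 b' → b = b'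
  bal : ∀ i, ∀ b ∈ P2 ∪ Q (!i), (qtr sd pt false i \ (us F2 b ∪ W2 b)).card =
    (qtr sd pt true i \ (us F2 b ∪ W2 b)).card
  T : ∀ b, ∀ v ∈ W2 b, sd v = false → v ∈ T2 ∧ c1 v = b
  Tw : ∀ v ∈ Tp, v ∈ W2 (c1 v)
  c : ∀ b, (W2 b).card ≤ 2 * K
  N1F : ∀ v w, N1.Adj v w → Fr.Adj v w
  N1m : ∀ v, dg (N0 ⊔ N1) v univ ≤ 1
  N1p : ∀ b, ∀ v ∈ W2 b, sd v = true →
    ∃ w, N1.Adj v w ∧ sd w = false ∧ (w ∈ T1 ∨ ∃ b', w ∈ W2 b')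

end defs

/-- MIS2C. PROOF. `W2` on the side `false`: `max qq (number of those in Tp)` of the vertices of `T2` with
`c1 = b`. Type P events on the side `true`: partners from `T1 ∪ W2` without an edge of `N0` (`hid`,
`N0p`), then one Hall argument. -/
def Stmt_MIS2C : Prop :=
  ∀ ρ κ : ℝ, 0 < ρ → ρ ≤ 1 → 0 < κ → κ ≤ 1 → ∃ δ : ℝ, 0 < δ ∧
    ∀ (V : Type u) [Fintype V] (H Fr N0 : SimpleGraph V) (d K : ℕ) (sd pt : V → Bool)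
      (Q : Bool → Finset ℕ) (P2 : Finset ℕ) (F2 : V → Finset ℕ) (c1 : V → ℕ)
      (T1 T2 Tp Pf : Finset V), 0 < d → M2C H Fr N0 d K ρ κ δ sd pt Q P2 F2 c1 T1 T2 Tp Pf →
      ∃ (W2 : ℕ → Finset V) (N1 : SimpleGraph V),
        M2CO Fr N0 N1 K sd pt Q P2 F2 c1 T1 T2 Tp Pf W2

end Pool.Agent.Work.MP_db9399_iv_helper72
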