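import Pool.Agent.Work.MP_db9399_da_helper72.MidA
import Pool.Agent.Work.MP_db9399_da_helper93.SGS
import Pool.Agent.Work.MP_db9399_iv_helper72.Mid3

/-!
# The combinatorial end of the middle theorem of LOCB3 (helper72)
-/

set_option autoImplicit false

namespace Pool.Agent.Work.MP_db9399_iv_helper72

open Finset Classical
open Pool.Agent.Work.MP_db9399_da_helper72
open Pool.Agent.Work.MP_db9399_all (nb)
open Pool.Agent.Work.MP_db9399_lt (us)
open Pool.Agent.Work.MP_db9399_da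
open Pool.Agent.Work.MP_db9399_da_helper93 (SG dgU qq_sgp)

universe u

section
variable {V : Type u} [Fintype V]

theorem core3 (hCRF : Stmt_CRF.{u}) {G N0 : SimpleGraph V} {d : ℕ}
    {C ρ π κ θ : ℝ} {sd pt : V → Bool} {Q : Bool → Finset ℕ} {P2 : Finset ℕ}
    {F : V → Finset ℕ} {W : ℕ → Finset V} {T1 T2 Tp Pf : Finset V} {c0 c1 : V → ℕ}
    (hM : MI3 G N0 d C ρ π κ θ sd pt Q P2 F W T1 T2 Tp Pf c0 c1) (hQ2 : ∀ i, 2 ≤ (Q i).card)
    {U N1 R : SimpleGraph V} {L : V → Finset ℕ} {t t2 : V → V → ℕ} {W2 : ℕ → Finset V}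
    (hUc : ∀ v w, U.Adj v w → (crs G sd pt).Adj v w)
    (hcol : Col G U (fun v => BB d Q P2 F W v ∪ L v) t)
    (hLP : ∀ v, L v ⊆ P2) (hLF : ∀ v, Disjoint (L v) (F v))
    (hW : ∀ b, ∀ v ∈ W2 b, b ∈ P2 ∪ Q (!(pt v)) ∧ b ∉ F v ∧ b ∉ L v ∧ v ∉ T1 ∧ v ∉ Pf)
    (hone : ∀ b b' v, v ∈ W2 b → v ∈ W2 b' → b = b')
    (hT : ∀ b, ∀ v ∈ W2 b, sd v = false → v ∈ T2 ∧ c1 v = b) (hTw : ∀ v ∈ Tp, v ∈ W2 (c1 v))
    (hNm : ∀ v, dg (N0 ⊔ N1) v univ ≤ 1)
    (hN1p : ∀ b, ∀ v ∈ W2 b, sd v = true →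
      ∃ w, N1.Adj v w ∧ sd w = false ∧ (w ∈ T1 ∨ ∃ b', w ∈ W2 b'))
    (hNR : ∀ v w, (N0 ⊔ N1).Adj v w → R.Adj v w) (hcol2 : Col U R (B2 Q P2 F L pt W2) t2) :
    ∃ (c : V → ℕ) (t : V → V → ℕ), (∀ v, c v ∈ oc c0 c1 T1 T2 v) ∧
      PEF G d (fun v => insert (c v) (F v)) t := by
  -- palettes
  have hPPn : ∀ b ∈ PP d Q P2, b ∉ P2 ∧ b ∉ Q false ∧ b ∉ Q true := by
    intro b hb
    have := (mem_sdiff.1 hb).2
    simp only [mem_union, not_or] at this
    exact ⟨this.2, this.1.1, this.1.2⟩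
  have hPPQ : ∀ b ∈ PP d Q P2, ∀ i, b ∉ Q i := by
    intro b hb i
    cases i
    · exact (hPPn b hb).2.1
    · exact (hPPn b hb).2.2
  have hQQ' : ∀ i, ∀ b ∈ Q i, b ∉ Q (!i) := by
    intro i b hb
    cases i
    · exact disjoint_left.1 hM.QQ hb
    · exact disjoint_right.1 hM.QQ hb
  have hQP' : ∀ i, ∀ b ∈ Q i, b ∉ P2 := fun i b hb => disjoint_left.1 (hM.QP i) hb
  -- own colours
  have hex : ∀ v, ∃ b, (v ∈ T1 → b = c1 v) ∧
      (v ∉ T1 → (sd v = false ∧ ∃ b', v ∈ W2 b') → b = c1 v ∧ v ∈ T2 ∧ v ∈ W2 b) ∧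
      (v ∉ T1 → ¬ (sd v = false ∧ ∃ b', v ∈ W2 b') → b = c0 v) := by
    intro v
    by_cases h1 : v ∈ T1
    · exact ⟨c1 v, fun _ => rfl, fun h => absurd h1 h, fun h => absurd h1 h⟩
    · by_cases h2 : sd v = false ∧ ∃ b', v ∈ W2 b'
      · obtain ⟨b, hb⟩ := h2.2
        have h3 := hT b v hb h2.1
        refine ⟨b, fun h => absurd h h1, fun _ _ => ⟨h3.2.symm, h3.1, hb⟩, fun _ h => absurd h2 h⟩
      · exact ⟨c0 v, fun h => absurd h h1, fun _ h => absurd h h2, fun _ _ => rfl⟩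
  choose c hc1 hc2 hc3 using hex
  have hcW : ∀ v b, v ∈ W2 b → sd v = false → c v = b := by
    intro v b hv hs
    exact hone _ _ v (hc2 v (hW b v hv).2.2.2.1 ⟨hs, b, hv⟩).2.2 hv
  have hcases : ∀ v, v ∉ T1 → (sd v = false ∧ v ∈ W2 (c v) ∧ v ∈ T2 ∧ c v = c1 v) ∨
      (c v = c0 v ∧ ¬ (sd v = false ∧ ∃ b', v ∈ W2 b')) := by
    intro v hv
    by_cases h2 : sd v = false ∧ ∃ b', v ∈ W2 b'
    · have h3 := hc2 v hv h2
      exact Or.inl ⟨h2.1, h3.2.2, h3.2.1, h3.1⟩
    · exact Or.inr ⟨hc3 v hv h2, h2⟩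
  have hQsub : ∀ i, ∀ b ∈ Q i, b ∈ P2 ∪ Q false ∪ Q true := by
    intro i b hb
    cases i
    · exact mem_union_left _ (mem_union_right _ hb)
    · exact mem_union_right _ hb
  have hcn : ∀ v, v ∉ T1 → c v ∈ P2 ∪ Q false ∪ Q true := by
    intro v hv
    rcases hcases v hv with ⟨_, h2, _⟩ | ⟨h1, _⟩
    · rcases mem_union.1 (hW _ v h2).1 with h3 | h3
      · exact mem_union_left _ (mem_union_left _ h3)
      · exact hQsub _ _ h3
    · rw [h1]
      exact hQsub _ _ (hM.c0Q v hv)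
  have hoc : ∀ v, c v ∈ oc c0 c1 T1 T2 v := by
    intro v
    unfold oc
    by_cases h1 : v ∈ T1
    · rw [if_pos h1, mem_singleton]
      exact hc1 v h1
    · rw [if_neg h1]
      rcases hcases v h1 with ⟨_, _, h2, h3⟩ | ⟨h2, _⟩
      · rw [if_pos h2, h3]
        exact mem_insert_of_mem (mem_singleton_self _)
      · rw [h2]
        split_ifs
        · exact mem_insert_self _ _
        · exact mem_singleton_self _
  -- degrees of R
  have hSG : SG G d d sd pt Q P2 F W :=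
    { deg := hM.deg, Flt := hM.Flt, FQ := hM.FQ, QQ := hM.QQ, QP := hM.QP, Qlt := hM.Qlt
      Plt := hM.Plt, eqs := hM.eqs, WF := hM.WF }
  have hdR : ∀ v, dg R v univ + 2 = (Q (pt v)).card +
      ((PP d Q P2).filter fun b => v ∈ W b).card +
      ((P2 ∪ Q (!(pt v))).filter fun b => v ∈ W2 b).card := by
    intro v
    have h1 := dgU hSG hcol hLP hLF v
    have h2 := hcol2.card v
    have h3 : (P2 ∪ Q (!(pt v))).card = (B2 Q P2 F L pt W2 v).card +
        ((F v ∪ L v) ∩ (P2 ∪ Q (!(pt v)))).card +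
        ((P2 ∪ Q (!(pt v))).filter fun b => v ∈ W2 b).card := by
      have e1 : P2 ∪ Q (!(pt v)) = (B2 Q P2 F L pt W2 v ∪ ((F v ∪ L v) ∩ (P2 ∪ Q (!(pt v))))) ∪
          ((P2 ∪ Q (!(pt v))).filter fun b => v ∈ W2 b) := by
        ext b
        simp only [B2, mem_union, mem_filter, mem_inter]
        tauto
      have d1 : Disjoint (B2 Q P2 F L pt W2 v) ((F v ∪ L v) ∩ (P2 ∪ Q (!(pt v)))) := by
        rw [disjoint_left]
        intro b hb hb'
        rw [mem_inter, mem_union] at hb'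
        have hb2 := (mem_filter.1 hb).2
        rcases hb'.1 with h | h
        · exact hb2.1 h
        · exact hb2.2.1 h
      have d2 : Disjoint (B2 Q P2 F L pt W2 v ∪ ((F v ∪ L v) ∩ (P2 ∪ Q (!(pt v)))))
          ((P2 ∪ Q (!(pt v))).filter fun b => v ∈ W2 b) := by
        rw [disjoint_left]
        intro b hb hb'
        have hv := (mem_filter.1 hb').2
        have hw := hW b v hv
        rcases mem_union.1 hb with hb | hb
        · exact (mem_filter.1 hb).2.2.2 hv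
        · rcases mem_union.1 (mem_inter.1 hb).1 with h | h
          · exact hw.2.1 h
          · exact hw.2.2.1 h
      conv_lhs => rw [e1]
      rw [card_union_of_disjoint d2, card_union_of_disjoint d1]
    omega
  have hm1 : ∀ v, ((PP d Q P2).filter fun b => v ∈ W b).card ≤ 1 := by
    intro v
    rw [card_le_one]
    intro a ha b hb
    rw [mem_filter] at ha hb
    exact hM.one a ha.1 b hb.1 v ha.2 hb.2
  have hm2 : ∀ v, ((P2 ∪ Q (!(pt v))).filter fun b => v ∈ W2 b).card ≤ 1 := by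
    intro v
    rw [card_le_one]
    intro a ha b hb
    rw [mem_filter] at ha hb
    exact hone a b v ha.2 hb.2
  have hm10 : ∀ v, v ∉ T1 → v ∉ Pf → ((PP d Q P2).filter fun b => v ∈ W b).card = 0 := by
    intro v h1 h2
    rw [card_eq_zero, filter_eq_empty_iff]
    intro b hb hv
    rcases mem_union.1 ((hM.TPW v).2 ⟨b, hb, hv⟩) with h | h
    · exact h1 h
    · exact h2 h
  have hm20 : ∀ v, (¬ ∃ b, v ∈ W2 b) → ((P2 ∪ Q (!(pt v))).filter fun b => v ∈ W2 b).card = 0 := by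
    intro v h1
    rw [card_eq_zero, filter_eq_empty_iff]
    intro b _ hv
    exact h1 ⟨b, hv⟩
  obtain ⟨T, hTdef⟩ : ∃ T : Finset V, T = T1 ∪ univ.filter fun v => sd v = false ∧ ∃ b, v ∈ W2 b :=
    ⟨_, rfl⟩
  obtain ⟨P, hPdef⟩ : ∃ P : Finset V, P = Pf ∪ univ.filter fun v => sd v = true ∧ ∃ b, v ∈ W2 b :=
    ⟨_, rfl⟩
  have hTm : ∀ v, v ∈ T ↔ v ∈ T1 ∨ (sd v = false ∧ ∃ b, v ∈ W2 b) := by
    intro v
    rw [hTdef, mem_union, mem_filter]
    simp
  have hPm : ∀ v, v ∈ P ↔ v ∈ Pf ∨ (sd v = true ∧ ∃ b, v ∈ W2 b) := by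
    intro v
    rw [hPdef, mem_union, mem_filter]
    simp
  have hRU : ∀ v w, R.Adj v w → G.Adj v w ∧ sd v ≠ sd w ∧ pt v = pt w := fun v w h =>
    hUc v w (hcol2.le v w h)
  -- c is proper on R
  have hcG : ∀ v w, R.Adj v w → c v ≠ c w := by
    intro v w hvw he
    have h1 := hRU v w hvw
    have h2 := hoc w
    rw [← he] at h2
    exact disjoint_left.1 (hM.pc v w h1.1 h1.2.2) (hoc v) h2
  obtain ⟨t3, ht1, ht2, ht3⟩ := crf2 hCRF R (N0 ⊔ N1) sd pt Q c T P (fun v w h => (hRU v w h).2)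
    (by
      rw [disjoint_left]
      intro v h1 h2
      rw [hTm] at h1
      rw [hPm] at h2
      rcases h1 with h1 | ⟨h1, b, hb⟩
      · rcases h2 with h2 | ⟨_, b, hb⟩
        · exact disjoint_left.1 hM.TP h1 h2
        · exact (hW b v hb).2.2.2.1 h1
      · rcases h2 with h2 | ⟨h2, _⟩
        · exact (hW b v hb).2.2.2.2 h2
        · rw [h1] at h2
          exact absurd h2 (by simp))
    hQ2
    (by
      intro v h1 h2
      rw [hTm, not_or] at h1
      rw [hPm, not_or] at h2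
      have h3 : ¬ ∃ b, v ∈ W2 b := by
        intro h
        cases h4 : sd v
        · exact h1.2 ⟨h4, h⟩
        · exact h2.2 ⟨h4, h⟩
      have h4 := hdR v
      rw [hm10 v h1.1 h2.1, hm20 v h3] at h4
      omega)
    (by
      intro v
      have h4 := hdR v
      have h5 := hm1 v
      have h6 := hm2 v
      by_cases h7 : ∃ b, v ∈ W2 b
      · obtain ⟨b, hb⟩ := h7
        have h8 := hm10 v (hW b v hb).2.2.2.1 (hW b v hb).2.2.2.2
        omega
      · have h8 := hm20 v h7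
        omega)
    (by
      intro v hv
      rw [hTm] at hv
      rcases hv with hv | ⟨hs, b, hb⟩
      · rw [hc1 v hv]
        exact hPPQ _ (hM.T1W v hv).1 _
      · rw [hcW v b hb hs]
        intro h
        rcases mem_union.1 (hW b v hb).1 with h1 | h1
        · exact hQP' _ _ h h1
        · exact hQQ' _ _ h h1)
    hcG hNR hNm
    (by
      intro v hv
      rw [hPm] at hv
      rcases hv with hv | ⟨hs, b, hb⟩
      · obtain ⟨w, hw, hvw⟩ := hM.N0p v hv
        refine ⟨w, (hTm w).2 ?_, Or.inl hvw⟩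
        rcases mem_union.1 hw with hw | hw
        · exact Or.inl hw
        · exact Or.inr ⟨(hM.c2P w (hM.Tp2 hw)).1, c1 w, hTw w hw⟩
      · obtain ⟨w, hvw, hs', hw⟩ := hN1p b v hb hs
        refine ⟨w, (hTm w).2 ?_, Or.inr hvw⟩
        rcases hw with hw | hw
        · exact Or.inl hw
        · exact Or.inr ⟨hs', hw⟩)
  have hcol3 := hcol.comp hcol2
    (by
      intro v
      rw [disjoint_left]
      intro b hb hb'
      have hb2 := mem_filter.1 hb'
      rcases mem_union.1 hb with hb | hb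
      · have hb1 : b ∈ PP d Q P2 := (mem_filter.1 hb).1
        rcases mem_union.1 hb2.1 with h | h
        · exact (hPPn b hb1).1 h
        · exact hPPQ b hb1 _ h
      · exact hb2.2.2.1 hb)
  refine ⟨c, _, hoc, pef_of_col (Q' := fun v => Q (pt v)) hcol3 ?_ ?_ ht1 ht2 ht3⟩
  · intro v b hb
    rcases mem_union.1 hb with hb | hb
    · rcases mem_union.1 hb with hb | hb
      · have hb1 : b ∈ PP d Q P2 := (mem_filter.1 hb).1
        have hb2 := (mem_filter.1 hb).2
        refine ⟨mem_range.1 (mem_sdiff.1 hb1).1, hb2.1, ?_⟩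
        rintro rfl
        by_cases h1 : v ∈ T1
        · refine hb2.2 ?_
          rw [hc1 v h1]
          exact (hM.T1W v h1).2
        · have h4 := hcn v h1
          have h5 := hPPn _ hb1
          simp only [mem_union] at h4
          rcases h4 with (h4 | h4) | h4
          · exact h5.1 h4
          · exact h5.2.1 h4
          · exact h5.2.2 h4
      · refine ⟨mem_range.1 (hM.Plt (hLP v hb)), disjoint_left.1 (hLF v) hb, ?_⟩
        rintro rfl
        by_cases h1 : v ∈ T1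
        · rw [hc1 v h1] at hb
          exact (hPPn _ (hM.T1W v h1).1).1 (hLP v hb)
        · rcases hcases v h1 with ⟨_, h3, _⟩ | ⟨h3, _⟩
          · exact (hW _ v h3).2.2.1 hb
          · rw [h3] at hb
            exact hQP' _ _ (hM.c0Q v h1) (hLP v hb)
    · have hb1 := (mem_filter.1 hb).1
      have hb2 := (mem_filter.1 hb).2
      have hlt : b < d + 2 := by
        rcases mem_union.1 hb1 with h | h
        · exact mem_range.1 (hM.Plt h)
        · exact mem_range.1 (hM.Qlt _ h)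
      refine ⟨hlt, hb2.1, ?_⟩
      rintro rfl
      by_cases h1 : v ∈ T1
      · rw [hc1 v h1] at hb1
        have h3 := hPPn _ (hM.T1W v h1).1
        rcases mem_union.1 hb1 with h | h
        · exact h3.1 h
        · exact hPPQ _ (hM.T1W v h1).1 _ h
      · rcases hcases v h1 with ⟨_, h3, _⟩ | ⟨h3, _⟩
        · exact hb2.2.2 h3
        · rw [h3] at hb1
          rcases mem_union.1 hb1 with h | h
          · exact hQP' _ _ (hM.c0Q v h1) h
          · exact hQQ' _ _ (hM.c0Q v h1) h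
  · intro v b hb
    refine ⟨mem_range.1 (hM.Qlt _ hb), disjoint_right.1 (hM.FQ v) hb, ?_⟩
    intro h
    rcases mem_union.1 h with h | h
    · rcases mem_union.1 h with h | h
      · exact hPPQ b (mem_filter.1 h).1 _ hb
      · exact hQP' _ _ hb (hLP v h)
    · rcases mem_union.1 (mem_filter.1 h).1 with h | h
      · exact hQP' _ _ hb h
      · exact hQQ' _ _ hb h

end

end Pool.Agent.Work.MP_db9399_iv_helper72
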