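import Pool.Agent.Work.MP_db9399_da_helper72.MidC
import Pool.Agent.Work.MP_db9399_da_helper72.MIS2K
import Pool.Agent.Work.MP_db9399_iv_helper72.Core3

/-!
# LOCM3: the middle theorem of LOCB3 (helper72)
-/

set_option autoImplicit false

namespace Pool.Agent.Work.MP_db9399_iv_helper72

open Finset Classical
open Pool.Agent.Work.MP_db9399_da_helper72
open Pool.Agent.Work.MP_db9399_all (nb)
open Pool.Agent.Work.MP_db9399_lt (us)
open Pool.Agent.Work.MP_db9399_da
open Pool.Agent.Work.MP_db9399_da_helper93 (SG dgU qq_sgp sgs hid sgp_union)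

universe u

section
variable {V : Type u} [Fintype V]

/-- input of STA -/
theorem MI3.toSI {G N0 : SimpleGraph V} {d : ℕ}
    {C ρ π κ θ θ' : ℝ} {sd pt : V → Bool} {Q : Bool → Finset ℕ} {P2 : Finset ℕ}
    {F : V → Finset ℕ} {W : ℕ → Finset V} {T1 T2 Tp Pf : Finset V} {c0 c1 : V → ℕ}
    (hM : MI3 G N0 d C ρ π κ θ sd pt Q P2 F W T1 T2 Tp Pf c0 c1) (hθ : 0 < θ) (hθ' : 4 * θ ≤ θ')
    (hd : 1 ≤ θ * d) :
    ∃ s : ℕ, SI G N0 d d s C 2 π κ θ' sd pt Q P2 F W := by
  have hθd : θ * (d : ℝ) ≤ θ' * d := mul_le_mul_of_nonneg_right (by linarith) (Nat.cast_nonneg _)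
  have h4 : 4 * θ * (d : ℝ) ≤ θ' * d := mul_le_mul_of_nonneg_right hθ' (Nat.cast_nonneg _)
  have hSG : SG G d d sd pt Q P2 F W :=
    { deg := hM.deg, Flt := hM.Flt, FQ := hM.FQ, QQ := hM.QQ, QP := hM.QP, Qlt := hM.Qlt
      Plt := hM.Plt, eqs := hM.eqs, WF := hM.WF }
  refine ⟨⌈2 * θ * d⌉₊, ?_⟩
  have hs1 : 2 * θ * d ≤ (⌈2 * θ * d⌉₊ : ℝ) := Nat.le_ceil _
  have hs2 : (⌈2 * θ * d⌉₊ : ℝ) ≤ 2 * θ * d + 1 :=
    (Nat.ceil_lt_add_one (by positivity)).le
  exact
    { Dd := Or.inl rfl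
      deg := hM.deg
      VC := hM.VC
      Vl := hM.Vl
      Fx := fun v => (hM.Fx v).trans hθd
      load := fun b => (hM.load b).trans hθd
      Qlt := hM.Qlt, Plt := hM.Plt, QQ := hM.QQ, QP := hM.QP, Qc := hM.Qc, Pc := hM.Pc
      crd := fun v => (hM.crd v).trans hθd
      N0c := fun v w h => (hM.N0a v w h).1
      N0m := hM.N0m
      Wx := fun b hb => (hM.Wc b hb).trans hθd
      W1 := by
        intro v
        rw [card_le_one]
        intro a ha b hb
        rw [mem_filter] at ha hb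
        exact hM.one a ha.1 b hb.1 v ha.2 hb.2
      sgs := by
        intro i
        rw [sgs hSG i, cnt_one hM.TPW hM.one sd pt i]
        have h6 := hM.sgn i
        have h7 : |(((- ∑ b ∈ P2 ∪ Q (!i), sgp F sd pt i b +
            ∑ v ∈ (T1 ∪ Pf).filter (fun v => pt v = i), sgv (sd v) : ℤ)) : ℝ)| ≤
            (⌈2 * θ * d⌉₊ : ℝ) := by
          have h8 : 0 ≤ θ * (d : ℝ) := by linarith
          push_cast at h6 ⊢
          rw [neg_add_eq_sub]
          linarith
        exact_mod_cast h7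
      sth := by
        refine hs2.trans ?_
        linarith }

/-- input of MIS2C -/
theorem MI3.toM2C {G N0 U Con2 Fr : SimpleGraph V} {d K N2 : ℕ}
    {C ρ π κ θ δ lam ι : ℝ} {sd pt : V → Bool} {Q : Bool → Finset ℕ} {P2 : Finset ℕ}
    {F L : V → Finset ℕ} {W : ℕ → Finset V} {T1 T2 Tp Pf : Finset V} {c0 c1 : V → ℕ}
    {Zs : Finset (Finset V)} {t : V → V → ℕ}
    (hM : MI3 G N0 d C ρ π κ θ sd pt Q P2 F W T1 T2 Tp Pf c0 c1)
    (hO : SO G N0 U Con2 d κ (1 / N2) lam ι sd pt Q P2 F W Zs L t)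
    (hLz : ∀ v ∈ T2, c1 v ∉ L v)
    (hFr : ∀ v w, Fr.Adj v w ↔ U.Adj v w ∧ ¬ Con2.Adj v w ∧ ¬ N0.Adj v w)
    (hZs : ∀ i, qtr sd pt true i \ (T1 ∪ Pf) ∈ Zs) (hC : 1 ≤ C) (hι0 : 0 < ι)
    (hθ : 2 * θ ≤ δ) (hθ0 : 0 < θ) (hlam : 2 * lam ≤ δ) (hι : ι * C ^ 2 ≤ δ)
    (hπ : π ≤ ρ / 400) (hθρ : θ ≤ ρ / 16) (hK : 3 * (θ * d) + 2 ≤ K) :
    M2C (crs G sd pt) Fr N0 d K ρ κ δ sd pt Q P2 (fun v => F v ∪ L v) c1 T1 T2 Tp Pf := by
  have hd0 : (0 : ℝ) ≤ d := Nat.cast_nonneg _
  have hθd : θ * (d : ℝ) ≤ δ * d := mul_le_mul_of_nonneg_right (by linarith) hd0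
  have h2d : 2 * θ * (d : ℝ) ≤ δ * d := mul_le_mul_of_nonneg_right hθ hd0
  have h2l : 2 * lam * (d : ℝ) ≤ δ * d := mul_le_mul_of_nonneg_right hlam hd0
  have hSG : SG G d d sd pt Q P2 F W :=
    { deg := hM.deg, Flt := hM.Flt, FQ := hM.FQ, QQ := hM.QQ, QP := hM.QP, Qlt := hM.Qlt
      Plt := hM.Plt, eqs := hM.eqs, WF := hM.WF }
  have hV2 : ι * (Fintype.card V : ℝ) ^ 2 ≤ δ * (d : ℝ) ^ 2 := by
    have h1 : (Fintype.card V : ℝ) ^ 2 ≤ (C * d) ^ 2 :=
      pow_le_pow_left₀ (Nat.cast_nonneg _) hM.VC 2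
    have h2 : ι * (Fintype.card V : ℝ) ^ 2 ≤ ι * (C * d) ^ 2 := mul_le_mul_of_nonneg_left h1 hι0.le
    have h3 : ι * (C * d) ^ 2 = (ι * C ^ 2) * (d : ℝ) ^ 2 := by ring
    rw [h3] at h2
    exact h2.trans (mul_le_mul_of_nonneg_right hι (by positivity))
  have hV1 : ι * (Fintype.card V : ℝ) ≤ δ * d := by
    have h2 : ι * (Fintype.card V : ℝ) ≤ ι * (C * d) := mul_le_mul_of_nonneg_left hM.VC hι0.le
    have h3 : ι * (C * d) = (ι * C) * d := by ring
    rw [h3] at h2
    refine h2.trans (mul_le_mul_of_nonneg_right ?_ hd0)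
    refine le_trans ?_ hι
    have : C ≤ C ^ 2 := by nlinarith
    exact mul_le_mul_of_nonneg_left this hι0.le
  have hLn : ∀ b, b ∉ P2 → us L b = ∅ := by
    intro b hb
    ext v
    simp only [us, mem_filter, mem_univ, true_and, notMem_empty, iff_false]
    exact fun h => hb (hO.LP v h)
  have huL : ∀ b, ((us L b).card : ℝ) ≤ lam * d ∨ us L b = ∅ := by
    intro b
    by_cases hb : b ∈ P2
    · exact Or.inl (hO.Ll b hb)
    · exact Or.inr (hLn b hb)
  have hsL : ∀ i b, |sgp L sd pt i b| ≤ 2 ∧ (b ∉ P2 → sgp L sd pt i b = 0) := by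
    intro i b
    by_cases hb2 : b ∈ P2
    · refine ⟨?_, fun h => absurd hb2 h⟩
      rw [sgp_eq_sum]
      exact hO.Ls b hb2 i
    · have : sgp L sd pt i b = 0 := by
        unfold sgp
        rw [hLn b hb2]
        simp
      rw [this]
      exact ⟨by norm_num, fun _ => rfl⟩
  have hqq : ∀ i b, qq (fun v => F v ∪ L v) sd pt i b = -(sgp F sd pt i b + sgp L sd pt i b) := by
    intro i b
    rw [qq_sgp _ hM.eqs, sgp_union hO.LF]
  exact
    { Hc := fun v w h => h.2
      FrH := fun v w h => hO.Uc v w ((hFr v w).1 h).1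
      Hd := by
        intro v hv
        have h1 := hM.unm v
        have h2 : ((nb G v ∩ prt pt (pt v)) \ (T1 ∪ T2)).card ≤
            dg (crs G sd pt) v (qtr sd pt true (pt v) \ (T1 ∪ Pf)) + Pf.card := by
          unfold dg
          refine le_trans (card_le_card ?_) (card_union_le _ _)
          intro w hw
          rw [mem_sdiff, mem_inter, mem_union, not_or] at hw
          rw [mem_union, mem_filter, mem_sdiff, mem_union, not_or, MIS2KAux.mem_qtr]
          have h3 : G.Adj v w := by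
            have := hw.1.1
            rw [nb, mem_filter] at this
            exact this.2
          have h4 : pt w = pt v := by
            have := hw.1.2
            rw [prt, mem_filter] at this
            exact this.2
          have h5 : sd w = true := by
            have := hM.bip v w h3
            rw [hv] at this
            cases h : sd w
            · exact absurd h.symm this
            · rfl
          by_cases hP : w ∈ Pf
          · exact Or.inr hP
          · refine Or.inl ⟨⟨⟨h5, h4⟩, hw.2.1, hP⟩, h3, ?_, h4.symm⟩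
            rw [hv, h5]
            simp
        have h3 : (((nb G v ∩ prt pt (pt v)) \ (T1 ∪ T2)).card : ℝ) ≤
            (dg (crs G sd pt) v (qtr sd pt true (pt v) \ (T1 ∪ Pf)) : ℝ) + Pf.card := by
          exact_mod_cast h2
        have h4 := hM.Pfc
        have h5 : θ * (d : ℝ) ≤ ρ / 2 * d := mul_le_mul_of_nonneg_right (by linarith) hd0
        linarith
      F2l := by
        intro b _
        have h1 : ((us (fun v => F v ∪ L v) b).card : ℝ) ≤ (us F b).card + (us L b).card := by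
          have : us (fun v => F v ∪ L v) b ⊆ us F b ∪ us L b := by
            intro v hv
            simp only [us, mem_filter, mem_univ, true_and, mem_union] at hv ⊢
            exact hv
          have := (card_le_card this).trans (card_union_le _ _)
          exact_mod_cast this
        have h2 : ((us F b).card : ℝ) ≤ θ * d := hM.load b
        rcases huL b with h3 | h3
        · linarith
        · rw [h3, card_empty, Nat.cast_zero] at h1
          linarith
      qK := by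
        intro i b hb
        rw [hqq, abs_neg]
        have h1 := hM.sgQ i b hb
        have h2 := (hsL i b).1
        have h3 : (|sgp F sd pt i b + sgp L sd pt i b| : ℤ) ≤ |sgp F sd pt i b| + 2 :=
          (abs_add_le _ _).trans (by linarith)
        have h4 : ((|sgp F sd pt i b + sgp L sd pt i b| + 2 * (Tp.card : ℤ) : ℤ) : ℝ) ≤ K := by
          have h5 : ((|sgp F sd pt i b + sgp L sd pt i b| : ℤ) : ℝ) ≤
              ((|sgp F sd pt i b| + 2 : ℤ) : ℝ) := by exact_mod_cast h3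
          have h6 := hM.Tpc
          push_cast at h5 ⊢
          linarith
        exact_mod_cast h4
      tot := by
        intro i
        have h1 := hM.sl1 i
        have h2 : ∀ b ∈ P2 ∪ Q (!i), |((qq (fun v => F v ∪ L v) sd pt i b : ℤ) : ℝ)| ≤
            |((sgp F sd pt i b : ℤ) : ℝ)| + if b ∈ P2 then 2 else 0 := by
          intro b _
          rw [hqq]
          push_cast
          rw [abs_neg]
          refine (abs_add_le _ _).trans ?_
          have h3 := hsL i b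
          by_cases hb : b ∈ P2
          · rw [if_pos hb]
            have h4 : |((sgp L sd pt i b : ℤ) : ℝ)| ≤ 2 := by exact_mod_cast h3.1
            linarith
          · rw [if_neg hb, h3.2 hb]
            simp
        have h3 := sum_le_sum h2
        rw [sum_add_distrib] at h3
        have h4 : ∑ b ∈ P2 ∪ Q (!i), (if b ∈ P2 then (2 : ℝ) else 0) ≤ 2 * P2.card := by
          rw [← sum_filter, sum_const, nsmul_eq_mul, mul_comm]
          have h5 : ((P2 ∪ Q (!i)).filter (fun b => b ∈ P2)).card ≤ P2.card :=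
            card_le_card fun b hb => (mem_filter.1 hb).2
          have h6 : (((P2 ∪ Q (!i)).filter (fun b => b ∈ P2)).card : ℝ) ≤ P2.card := by
            exact_mod_cast h5
          linarith
        have h5 := hM.Pc.2
        have h6 : π * (d : ℝ) ≤ ρ / 400 * d := mul_le_mul_of_nonneg_right hπ hd0
        have h9 := hM.Tpc
        have h10 : θ * (d : ℝ) ≤ ρ / 16 * d := mul_le_mul_of_nonneg_right hθρ hd0
        have h7 : 0 ≤ ρ * (d : ℝ) := by
          have h8 : (0 : ℝ) ≤ P2.card := Nat.cast_nonneg _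
          linarith
        linarith
      fre := by
        intro A' B'
        have h1 := hO.fre A' B'
        have h2 : (((A' ×ˢ B').filter fun p => U.Adj p.1 p.2 ∧ ¬ Con2.Adj p.1 p.2 ∧
            ¬ N0.Adj p.1 p.2).card : ℝ) = (ee Fr A' B' : ℝ) := by
          unfold ee
          simp only [hFr]
        rw [h2] at h1
        linarith
      frd := by
        intro v i
        have h1 := hO.frd v _ (hZs i)
        have h2 : (((qtr sd pt true i \ (T1 ∪ Pf)).filter fun w => U.Adj v w ∧ ¬ Con2.Adj v w ∧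
            ¬ N0.Adj v w).card : ℝ) = (dg Fr v (qtr sd pt true i \ (T1 ∪ Pf)) : ℝ) := by
          unfold dg
          simp only [hFr]
        rw [h2] at h1
        linarith
      hid := by
        intro i
        rw [← cnt_one hM.TPW hM.one sd pt i]
        exact hid hSG hO.col (fun v w h => (hO.Uc v w h).2) hO.LP hO.LF i
      TP := hM.TP
      T2T := hM.T2T
      T2c := by
        intro v hv
        refine ⟨(hM.c2P v hv).1, (hM.c2P v hv).2, ?_⟩
        rw [mem_union, not_or]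
        exact ⟨hM.c2F v hv, hLz v hv⟩
      T2n := by
        intro i b hb
        rw [hqq]
        have h1 := hsL i b
        by_cases hb2 : b ∈ P2
        · have h2 := hM.n2 i b hb2
          have h3 := abs_le.1 h1.1
          linarith [h3.1]
        · have hbQ : b ∈ Q (!i) := by
            rcases mem_union.1 hb with h | h
            · exact absurd h hb2
            · exact h
          have h2 := hM.nQ i b hbQ
          rw [h1.2 hb2]
          linarith
      Tp2 := hM.Tp2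
      N0a := hM.N0a
      N0m := hM.N0m
      N0p := hM.N0p }

end

theorem stmt_LOCM3 (hSTA : Stmt_STA3.{u}) (hSTB : Stmt_STB.{u}) (hRB : Stmt_RB.{u})
    (hRP : Stmt_RP.{u}) (hM2 : Stmt_MIS2C.{u}) (hCRF : Stmt_CRF.{u}) : Stmt_LOCM3.{u} := by
  intro C ρ hC hρ hρ1
  have hC0 : 0 < C := by linarith
  refine ⟨ρ / 400, by positivity, ?_⟩
  intro π hπ hπ3
  have hπ2 : π ≤ 1 / 100 := by linarith
  refine ⟨1 / 100, by norm_num, ?_⟩
  intro κ hκ hκ2
  -- N2
  obtain ⟨N2, hN2⟩ : ∃ x : ℕ, x = ⌈1 / κ⌉₊ := ⟨_, rfl⟩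
  have hN2κ : 1 ≤ N2 * κ := by
    have h1 : 1 / κ ≤ N2 := by rw [hN2]; exact Nat.le_ceil _
    rw [div_le_iff₀ hκ] at h1
    exact h1
  have hN20 : (0 : ℝ) < N2 := by
    by_contra h
    have : (N2 : ℝ) ≤ 0 := not_lt.1 h
    nlinarith
  have hN21 : (1 : ℝ) ≤ N2 := by nlinarith
  have hr2 : (1 : ℝ) / N2 ≤ 1 := by
    rw [div_le_one hN20]
    exact hN21
  -- constants
  obtain ⟨δ2, hδ2, hMIS⟩ := hM2 ρ κ hρ hρ1 hκ (by linarith)
  obtain ⟨ε2, m2, hε2, hRP'⟩ := hRP (2 * C) ρ (1 / N2) (κ / C) (by linarith) hρ (by positivity) hr2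
    (by positivity)
  obtain ⟨lamB, ιB, θB, dB, hlB, hlB1, hιB, hθB, hSTB'⟩ := hSTB C 2 π κ ε2 N2 hC (Or.inl rfl) hπ
    hπ2 hκ hκ2 hN2κ hε2
  obtain ⟨lam, hlam⟩ : ∃ x : ℝ, x = min lamB (δ2 / 2) := ⟨_, rfl⟩
  obtain ⟨ι, hι⟩ : ∃ x : ℝ, x = min ιB (δ2 / C ^ 2) := ⟨_, rfl⟩
  have hlam0 : 0 < lam := by rw [hlam]; exact lt_min hlB (by positivity)
  have hlam1 : lam ≤ lamB := by rw [hlam]; exact min_le_left _ _
  have hlam2 : 2 * lam ≤ δ2 := by
    have : lam ≤ δ2 / 2 := by rw [hlam]; exact min_le_right _ _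
    linarith
  have hι0 : 0 < ι := by rw [hι]; exact lt_min hιB (by positivity)
  have hι1 : ι ≤ ιB := by rw [hι]; exact min_le_left _ _
  have hι2 : ι * C ^ 2 ≤ δ2 := by
    have : ι ≤ δ2 / C ^ 2 := by rw [hι]; exact min_le_right _ _
    rw [le_div_iff₀ (by positivity)] at this
    exact this
  obtain ⟨r1, hr1, hr11, hSTA'⟩ := hSTA C 2 π κ lam ι N2 hC (Or.inl rfl) hπ hπ2 hκ hκ2 hlam0
    (by linarith) hι0 hN2κ
  obtain ⟨ε1, m1, hε1, hRB'⟩ := hRB C ρ r1 (1 / (2 * C)) hC hρ hr1 hr11 (by positivity)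
  obtain ⟨θ1, d1, hθ1, hSTA''⟩ := hSTA' ε1 hε1
  obtain ⟨θ', hθ'⟩ : ∃ x : ℝ, x = min θ1 θB := ⟨_, rfl⟩
  have hθ'0 : 0 < θ' := by rw [hθ']; exact lt_min hθ1 hθB
  have hθ'1 : θ' ≤ θ1 := by rw [hθ']; exact min_le_left _ _
  have hθ'2 : θ' ≤ θB := by rw [hθ']; exact min_le_right _ _
  obtain ⟨θ, hθ⟩ : ∃ x : ℝ, x = min (θ' / 16) (min (δ2 / 2) (min ε1 (min ε2 (ρ / 16)))) := ⟨_, rfl⟩
  have hθ0 : 0 < θ := by
    rw [hθ]
    exact lt_min (by positivity) (lt_min (by positivity) (lt_min hε1 (lt_min hε2 (by positivity))))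
  have ht1 : θ ≤ θ' / 16 := by rw [hθ]; exact min_le_left _ _
  have ht2 : θ ≤ δ2 / 2 := by rw [hθ]; exact (min_le_right _ _).trans (min_le_left _ _)
  have ht3 : θ ≤ ε1 := by
    rw [hθ]
    exact (min_le_right _ _).trans ((min_le_right _ _).trans (min_le_left _ _))
  have ht4 : θ ≤ ε2 := by
    rw [hθ]
    exact (min_le_right _ _).trans ((min_le_right _ _).trans ((min_le_right _ _).trans
      (min_le_left _ _)))
  have ht5 : θ ≤ ρ / 16 := by
    rw [hθ]
    exact (min_le_right _ _).trans ((min_le_right _ _).trans ((min_le_right _ _).trans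
      (min_le_right _ _)))
  refine ⟨θ, d1 + dB + m1 + m2 + ⌈3 / θ⌉₊ + ⌈2 / κ⌉₊ + 1, hθ0, ?_⟩
  intro V _ G N0 d sd pt Q P2 F W T1 T2 Tp Pf c0 c1 hd hM
  have hdR : (d1 : ℝ) + dB + m1 + m2 + ⌈3 / θ⌉₊ + ⌈2 / κ⌉₊ + 1 ≤ d := by exact_mod_cast hd
  have hn1 := Nat.le_ceil (3 / θ)
  have hn2 := Nat.le_ceil (2 / κ)
  have hp1 : (0 : ℝ) ≤ d1 := Nat.cast_nonneg _
  have hp2 : (0 : ℝ) ≤ dB := Nat.cast_nonneg _
  have hp4 : (0 : ℝ) ≤ m1 := Nat.cast_nonneg _
  have hp5 : (0 : ℝ) ≤ m2 := Nat.cast_nonneg _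
  have hp6 : (0 : ℝ) ≤ (⌈3 / θ⌉₊ : ℝ) := Nat.cast_nonneg _
  have hp7 : (0 : ℝ) ≤ (⌈2 / κ⌉₊ : ℝ) := Nat.cast_nonneg _
  have hd1 : 3 ≤ θ * d := by
    have : 3 / θ ≤ (d : ℝ) := by linarith
    rw [div_le_iff₀ hθ0] at this
    linarith
  have hd2 : 2 ≤ κ * d := by
    have : 2 / κ ≤ (d : ℝ) := by linarith
    rw [div_le_iff₀ hκ] at this
    linarith
  have hd0 : (0 : ℝ) < d := by linarith
  have hVd : d + 2 ≤ Fintype.card V := hM.Vl
  have hVdR : (d : ℝ) ≤ Fintype.card V := by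
    have : d ≤ Fintype.card V := by omega
    exact_mod_cast this
  have hQ2 : ∀ i, 2 ≤ (Q i).card := by
    intro i
    have := (hM.Qc i).1
    have h1 : (2 : ℝ) ≤ (Q i).card := by linarith
    exact_mod_cast h1
  have hθθ' : θ * (d : ℝ) ≤ θ' / 16 * d := mul_le_mul_of_nonneg_right ht1 hd0.le
  -- stage A
  obtain ⟨s, hSI⟩ := hM.toSI (θ' := θ') hθ0 (by linarith) (by linarith)
  have hRO := hRB' V G sd d (by omega) hM.VC hM.bip
    (by
      intro v
      have h1 : (dg G v univ : ℝ) + (F v).card = d := by exact_mod_cast hM.deg v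
      have h2 := hM.Fx v
      have h3 : (0 : ℝ) ≤ (F v).card := Nat.cast_nonneg _
      have h4 : θ * (d : ℝ) ≤ ε1 * Fintype.card V := mul_le_mul ht3 hVdR hd0.le hε1.le
      rw [abs_le]
      constructor <;> linarith)
    hM.cutG
  obtain ⟨Zs, hZs⟩ : ∃ Zs : Finset (Finset V), Zs = (univ : Finset Bool).image
    fun i => qtr sd pt true i \ (T1 ∪ Pf) := ⟨_, rfl⟩
  have hZc : Zs.card ≤ 10 := by
    rw [hZs]
    refine card_image_le.trans ?_
    rw [card_univ, Fintype.card_bool]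
    omega
  have hZm : ∀ i, qtr sd pt true i \ (T1 ∪ Pf) ∈ Zs := by
    intro i
    rw [hZs]
    exact mem_image_of_mem _ (mem_univ i)
  obtain ⟨U, Con2, L, t, hSO, hLz⟩ := hSTA'' V G N0 d d s sd pt Q P2 F
    (fun v => if v ∈ T2 then {c1 v} else ∅) W Zs _ (by omega) hZc
    (hSI.mono hθ'1)
    (by
      intro v
      have h1 : ((if v ∈ T2 then ({c1 v} : Finset ℕ) else ∅).card : ℝ) ≤ 1 := by
        split_ifs
        · simp
        · simp
      have h2 : θ' * (d : ℝ) ≤ θ1 * d := mul_le_mul_of_nonneg_right hθ'1 hd0.le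
      linarith)
    hRO hM.bal
  have hLz' : ∀ v ∈ T2, c1 v ∉ L v := by
    intro v hv h
    have h1 := hLz v
    rw [if_pos hv] at h1
    exact disjoint_left.1 h1 h (mem_singleton_self _)
  -- misses of stage B
  obtain ⟨Fr, hFr⟩ : ∃ Fr : SimpleGraph V, ∀ v w, Fr.Adj v w ↔
      U.Adj v w ∧ ¬ Con2.Adj v w ∧ ¬ N0.Adj v w := ⟨
    { Adj := fun v w => U.Adj v w ∧ ¬ Con2.Adj v w ∧ ¬ N0.Adj v w
      symm := ⟨fun v w h => ⟨h.1.symm, fun h' => h.2.1 h'.symm, fun h' => h.2.2 h'.symm⟩⟩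
      loopless := ⟨fun v h => U.loopless.irrefl v h.1⟩ }, fun v w => Iff.rfl⟩
  obtain ⟨K, hK⟩ : ∃ K : ℕ, K = ⌈3 * (θ * d) + 2⌉₊ := ⟨_, rfl⟩
  have hK1 : 3 * (θ * d) + 2 ≤ K := by rw [hK]; exact Nat.le_ceil _
  have hK2 : (K : ℝ) ≤ 3 * (θ * d) + 3 := by
    rw [hK]
    have := Nat.ceil_lt_add_one (show (0 : ℝ) ≤ 3 * (θ * d) + 2 by linarith)
    linarith
  obtain ⟨W2, N1, hO⟩ := hMIS V (crs G sd pt) Fr N0 d K sd pt Q P2 (fun v => F v ∪ L v) c1 T1 T2 Tp Pf
    (by exact_mod_cast hd0) (hM.toM2C hSO hLz' hFr hZm hC hι0 (by linarith) hθ0 hlam2 hι2 hπ3 ht5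
      hK1)
  have hWF : ∀ b, ∀ v ∈ W2 b, b ∉ F v ∧ b ∉ L v := by
    intro b v hv
    have := (hO.W b v hv).2.1
    rw [mem_union, not_or] at this
    exact this
  -- stage B
  have hROP := hRP' V (crs G sd pt) sd pt (d / 2) (by omega)
    (by
      have := hM.VC
      linarith)
    (fun v w h => h.2) hM.prl
    (by
      intro v
      refine (hM.crd v).trans ?_
      exact mul_le_mul ht4 hVdR hd0.le hε2.le)
    hM.cutP
  have hS2 : S2I U Con2 (N0 ⊔ N1) d θB sd pt Q P2 F L W W2 :=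
    { Flt := hM.Flt, FQ := hM.FQ, eqs := hM.eqs, prl := hM.prl, WF := hM.WF
      NU := by
        rintro v w (h | h)
        · exact ⟨hSO.N0U v w h, fun h' => (hSO.CU v w h').2 h⟩
        · have := (hFr v w).1 (hO.N1F v w h)
          exact ⟨this.1, this.2.1⟩
      Nm := hO.N1m
      Wc := by
        intro b
        have h1 : ((W2 b).card : ℝ) ≤ 2 * K := by exact_mod_cast hO.c b
        have h2 : θ' * (d : ℝ) ≤ θB * d := mul_le_mul_of_nonneg_right hθ'2 hd0.le
        linarith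
      W1 := by
        intro v
        rw [card_le_one]
        intro a ha b hb
        rw [mem_filter] at ha hb
        exact hO.one a b v ha.2 hb.2
      bal := by
        intro i b hb
        have h1 : (univ.filter fun v => b ∈ F v ∨ b ∈ L v ∨ v ∈ W2 b) =
            us (fun v => F v ∪ L v) b ∪ W2 b := by
          ext v
          simp only [us, mem_filter, mem_univ, true_and, mem_union]
          tauto
        rw [h1]
        exact hO.bal i b hb }
  obtain ⟨R, t2, hNR, hcol2⟩ := hSTB' V G N0 U Con2 (N0 ⊔ N1) d d s sd pt Q P2 F L W W2 Zs t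
    (by omega) (hSI.mono hθ'2) (hSO.mono hlam1 hι1) hS2 hROP
  exact core3 hCRF hM hQ2 hSO.Uc hSO.col hSO.LP hSO.LF
    (fun b v hv => ⟨(hO.W b v hv).1, (hWF b v hv).1, (hWF b v hv).2, (hO.W b v hv).2.2.1,
      (hO.W b v hv).2.2.2⟩)
    hO.one (fun b v hv hs => hO.T b v hv hs) hO.Tw hO.N1m hO.N1p hNR hcol2

end Pool.Agent.Work.MP_db9399_iv_helper72
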