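import Pool.Agent.Work.MP_db9399_da_helper72.MIS2K
import Pool.Agent.Work.MP_db9399_iv_helper72.Mid3

/-!
# Block MIS2C: misses of stage B with partners, own colours given (helper72)
-/

set_option autoImplicit false

namespace Pool.Agent.Work.MP_db9399_iv_helper72

open Finset Classical
open Pool.Agent.Work.MP_db9399_da_helper72
open Pool.Agent.Work.MP_db9399_da_helper72.MIS2KAux
open Pool.Agent.Work.MP_db9399_all (nb)
open Pool.Agent.Work.MP_db9399_lt (us)
open Pool.Agent.Work.MP_db9399_da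

universe u

section
variable {V : Type u} [Fintype V]

/-- Hall for partners of distinct vertices -/
theorem hall_part {ι : Type*} (E : Finset ι) (Fr H : SimpleGraph V) (x : ι → V)
    (hx : ∀ e ∈ E, ∀ e' ∈ E, x e = x e' → e = e')
    (Z : Finset V) (bad : ι → Finset V) (D a δ κ : ℝ) (hD : 0 < D) (hκ : 0 < κ) (ha : 0 < a)
    (hκ1 : κ ≤ 1) (ha1 : a ≤ 1) (hδ0 : 0 ≤ δ) (hE : (E.card : ℝ) ≤ a / 4 * D)
    (hdH : ∀ e ∈ E, a * D ≤ (dg H (x e) Z : ℝ))
    (hbad : ∀ e ∈ E, ((bad e).card : ℝ) ≤ δ * D)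
    (hfrd : ∀ e ∈ E, κ * dg H (x e) Z ≤ (dg Fr (x e) Z : ℝ) + δ * D)
    (hfre : ∀ A' B' : Finset V, κ * ee H A' B' ≤ (ee Fr A' B' : ℝ) + δ * D ^ 2)
    (hδ : 32 * δ ≤ (κ * a) ^ 2) [Nonempty V] :
    ∃ y : ι → V, (∀ e ∈ E, ∀ e' ∈ E, y e = y e' → e = e') ∧
      ∀ e ∈ E, y e ∈ Z ∧ Fr.Adj (x e) (y e) ∧ y e ∉ bad e := by
  have hκa : 0 < κ * a := by positivity
  have hκa1 : κ * a ≤ 1 := by nlinarith
  have hH : ∀ S : Finset {e // e ∈ E}, S.card ≤ (S.biUnion fun e =>
      Z.filter fun y => Fr.Adj (x e.1) y ∧ y ∉ bad e.1).card := by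
    intro S
    by_contra hlt
    rw [not_le] at hlt
    obtain ⟨N, hN⟩ : ∃ N : Finset V, N = S.biUnion fun e =>
      Z.filter fun y => Fr.Adj (x e.1) y ∧ y ∉ bad e.1 := ⟨_, rfl⟩
    rw [← hN] at hlt
    have hltR : (N.card : ℝ) < S.card := by exact_mod_cast hlt
    have hSE : (S.card : ℝ) ≤ a / 4 * D := by
      refine le_trans ?_ hE
      have h1 : S.card ≤ E.card := by
        have := card_le_card (subset_univ S)
        rwa [card_univ, Fintype.card_coe] at this
      exact_mod_cast h1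
    have hSne : S.Nonempty := by
      rw [← card_pos]
      omega
    obtain ⟨e0, he0⟩ := hSne
    -- one vertex
    have hs1 : κ * a / 2 * D < S.card := by
      have h1 : (dg Fr (x e0.1) Z : ℝ) ≤ N.card + (bad e0.1).card := by
        have h2 : (Z.filter fun w => Fr.Adj (x e0.1) w) ⊆ N ∪ bad e0.1 := by
          intro w hw
          rw [mem_filter] at hw
          rw [mem_union]
          by_cases hb : w ∈ bad e0.1
          · exact Or.inr hb
          · refine Or.inl ?_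
            rw [hN, mem_biUnion]
            exact ⟨e0, he0, mem_filter.2 ⟨hw.1, hw.2, hb⟩⟩
        have h3 := (card_le_card h2).trans (card_union_le _ _)
        unfold dg
        exact_mod_cast h3
      have h2 := hfrd e0.1 e0.2
      have h3 := hdH e0.1 e0.2
      have h4 := hbad e0.1 e0.2
      have h5 : κ * (a * D) ≤ κ * dg H (x e0.1) Z := mul_le_mul_of_nonneg_left h3 hκ.le
      have h6 : 32 * δ * D ≤ κ * a * D := by
        refine mul_le_mul_of_nonneg_right ?_ hD.le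
        nlinarith
      nlinarith
    obtain ⟨X, hX⟩ : ∃ X : Finset V, X = S.image fun e => x e.1 := ⟨_, rfl⟩
    have hXc : X.card = S.card := by
      rw [hX]
      refine card_image_of_injOn ?_
      intro e _ e' _ h
      exact Subtype.ext (hx e.1 e.2 e'.1 e'.2 h)
    have hXm : ∀ v ∈ X, ∃ e ∈ S, x e.1 = v := by
      intro v hv
      rw [hX, mem_image] at hv
      exact hv
    have hFr : (ee Fr X (Z \ N) : ℝ) ≤ S.card * (δ * D) := by
      rw [ee_eq_sum, ← hXc]
      push_cast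
      calc ∑ v ∈ X, (dg Fr v (Z \ N) : ℝ) ≤ ∑ _v ∈ X, δ * D := by
            refine sum_le_sum fun v hv => ?_
            obtain ⟨e, he, rfl⟩ := hXm v hv
            refine le_trans ?_ (hbad e.1 e.2)
            have h2 : ((Z \ N).filter fun w => Fr.Adj (x e.1) w) ⊆ bad e.1 := by
              intro w hw
              rw [mem_filter, mem_sdiff] at hw
              by_contra hb
              refine hw.1.2 ?_
              rw [hN, mem_biUnion]
              exact ⟨e, he, mem_filter.2 ⟨hw.1.1, hw.2, hb⟩⟩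
            unfold dg
            exact_mod_cast card_le_card h2
        _ = X.card * (δ * D) := by rw [sum_const, nsmul_eq_mul]
    have hHH : (S.card : ℝ) * (3 / 4 * a * D) ≤ ee H X (Z \ N) := by
      rw [ee_eq_sum, ← hXc]
      push_cast
      calc (X.card : ℝ) * (3 / 4 * a * D) = ∑ _v ∈ X, 3 / 4 * a * D := by
            rw [sum_const, nsmul_eq_mul]
        _ ≤ ∑ v ∈ X, (dg H v (Z \ N) : ℝ) := by
            refine sum_le_sum fun v hv => ?_
            obtain ⟨e, he, rfl⟩ := hXm v hv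
            have h2 : (dg H (x e.1) Z : ℝ) ≤ dg H (x e.1) (Z \ N) + N.card := by
              have h3 : (Z.filter fun w => H.Adj (x e.1) w) ⊆
                  ((Z \ N).filter fun w => H.Adj (x e.1) w) ∪ N := by
                intro w hw
                rw [mem_filter] at hw
                rw [mem_union, mem_filter, mem_sdiff]
                by_cases hb : w ∈ N
                · exact Or.inr hb
                · exact Or.inl ⟨⟨hw.1, hb⟩, hw.2⟩
              have h4 := (card_le_card h3).trans (card_union_le _ _)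
              unfold dg
              exact_mod_cast h4
            have h3 := hdH e.1 e.2
            linarith
    have h7 := hfre X (Z \ N)
    have h8 : κ * ((S.card : ℝ) * (3 / 4 * a * D)) ≤ κ * ee H X (Z \ N) :=
      mul_le_mul_of_nonneg_left hHH hκ.le
    have h9 : (S.card : ℝ) * (3 / 4 * (κ * a) - δ) * D ≤ δ * D * D := by nlinarith
    have h10 : (S.card : ℝ) * (3 / 4 * (κ * a) - δ) ≤ δ * D := le_of_mul_le_mul_right h9 hD
    have h11 : δ ≤ κ * a / 4 := by nlinarith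
    have h12 : κ * a / 2 * D * (κ * a / 2) ≤ (S.card : ℝ) * (3 / 4 * (κ * a) - δ) :=
      mul_le_mul hs1.le (by linarith) (by positivity) (Nat.cast_nonneg _)
    have h13 : (κ * a) ^ 2 / 4 * D ≤ δ * D := by nlinarith
    have h14 : (κ * a) ^ 2 / 4 ≤ δ := le_of_mul_le_mul_right h13 hD
    have h15 : 0 < (κ * a) ^ 2 := by positivity
    linarith
  obtain ⟨g, hg1, hg2⟩ := (Finset.all_card_le_biUnion_card_iff_exists_injective _).1 hH
  refine ⟨fun e => if h : e ∈ E then g ⟨e, h⟩ else Classical.arbitrary V, ?_, ?_⟩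
  · intro e he e' he' h
    simp only [dif_pos he, dif_pos he'] at h
    exact congrArg Subtype.val (hg1 h)
  · intro e he
    simp only [dif_pos he]
    have h1 := hg2 ⟨e, he⟩
    rw [mem_filter] at h1
    exact h1

variable {H Fr N0 : SimpleGraph V} {d K : ℕ} {ρ κ δ : ℝ}
  {sd pt : V → Bool} {Q : Bool → Finset ℕ} {P2 : Finset ℕ} {F2 : V → Finset ℕ} {c1 : V → ℕ}
  {T1 T2 Tp Pf : Finset V}

/-- number of vertices of `T2` of the part `i` with `c1 = b` which get the own colour `b` -/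
noncomputable def tau (F2 : V → Finset ℕ) (sd pt : V → Bool) (c1 : V → ℕ) (Tp : Finset V)
    (i : Bool) (b : ℕ) : ℕ :=
  max (qq F2 sd pt i b).toNat (Tp.filter fun v => pt v = i ∧ c1 v = b).card

/-- number of missed vertices of type P -/
noncomputable def evn (F2 : V → Finset ℕ) (sd pt : V → Bool) (c1 : V → ℕ) (Tp : Finset V)
    (i : Bool) (b : ℕ) : ℕ :=
  tau F2 sd pt c1 Tp i b - (qq F2 sd pt i b).toNat + (-qq F2 sd pt i b).toNat

theorem evn_eq (F2 : V → Finset ℕ) (sd pt : V → Bool) (c1 : V → ℕ) (Tp : Finset V)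
    (i : Bool) (b : ℕ) : (evn F2 sd pt c1 Tp i b : ℤ) =
      (tau F2 sd pt c1 Tp i b : ℤ) - qq F2 sd pt i b := by
  have h1 : (qq F2 sd pt i b).toNat ≤ tau F2 sd pt c1 Tp i b := le_max_left _ _
  unfold evn
  omega

theorem tau_evn_le (F2 : V → Finset ℕ) (sd pt : V → Bool) (c1 : V → ℕ) (Tp : Finset V)
    (i : Bool) (b : ℕ) : (tau F2 sd pt c1 Tp i b : ℤ) + evn F2 sd pt c1 Tp i b ≤
      |qq F2 sd pt i b| + 2 * Tp.card := by
  have h1 : (Tp.filter fun v => pt v = i ∧ c1 v = b).card ≤ Tp.card := card_filter_le _ _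
  rw [evn_eq]
  have h2 : tau F2 sd pt c1 Tp i b ≤ max (qq F2 sd pt i b).toNat Tp.card :=
    max_le_max le_rfl h1
  rcases le_total 0 (qq F2 sd pt i b) with h | h
  · rw [abs_of_nonneg h]
    rcases le_total (qq F2 sd pt i b).toNat Tp.card with h3 | h3
    · rw [max_eq_right h3] at h2
      omega
    · rw [max_eq_left h3] at h2
      omega
  · rw [abs_of_nonpos h]
    have h3 : (qq F2 sd pt i b).toNat ≤ Tp.card := by omega
    rw [max_eq_right h3] at h2
    omega

theorem evn_sum (F2 : V → Finset ℕ) (sd pt : V → Bool) (c1 : V → ℕ) (Tp : Finset V)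
    (i : Bool) (B : Finset ℕ) : ((∑ b ∈ B, evn F2 sd pt c1 Tp i b : ℕ) : ℝ) ≤
      ∑ b ∈ B, |((qq F2 sd pt i b : ℤ) : ℝ)| + Tp.card := by
  have h1 : ∀ b ∈ B, (evn F2 sd pt c1 Tp i b : ℝ) ≤ |((qq F2 sd pt i b : ℤ) : ℝ)| +
      ((Tp.filter fun v => pt v = i ∧ c1 v = b).card : ℝ) := by
    intro b _
    have h2 : (evn F2 sd pt c1 Tp i b : ℤ) ≤ |qq F2 sd pt i b| +
        ((Tp.filter fun v => pt v = i ∧ c1 v = b).card : ℤ) := by
      rw [evn_eq]
      unfold tau
      rcases le_total 0 (qq F2 sd pt i b) with h | h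
      · rw [abs_of_nonneg h]
        rcases le_total (qq F2 sd pt i b).toNat (Tp.filter fun v => pt v = i ∧ c1 v = b).card
          with h3 | h3
        · rw [max_eq_right h3]
          omega
        · rw [max_eq_left h3]
          omega
      · rw [abs_of_nonpos h]
        have h3 : (qq F2 sd pt i b).toNat = 0 := by omega
        rw [h3, max_eq_right (Nat.zero_le _)]
        omega
    exact_mod_cast h2
  have h2 := sum_le_sum h1
  rw [sum_add_distrib] at h2
  have h3 : ∑ b ∈ B, (Tp.filter fun v => pt v = i ∧ c1 v = b).card ≤ Tp.card := by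
    rw [← card_biUnion]
    · refine card_le_card fun v hv => ?_
      obtain ⟨b, _, h⟩ := mem_biUnion.1 hv
      exact (mem_filter.1 h).1
    · intro b _ b' _ hne
      show Disjoint (Tp.filter fun v => pt v = i ∧ c1 v = b) (Tp.filter fun v => pt v = i ∧ c1 v = b')
      rw [disjoint_left]
      intro v hv hv'
      exact hne ((mem_filter.1 hv).2.2.symm.trans (mem_filter.1 hv').2.2)
  have h4 : ((∑ b ∈ B, (Tp.filter fun v => pt v = i ∧ c1 v = b).card : ℕ) : ℝ) ≤ Tp.card := by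
    exact_mod_cast h3
  push_cast at h4 ⊢
  linarith

/-- free hosts -/
theorem free_T1 (hI : M2C H Fr N0 d K ρ κ δ sd pt Q P2 F2 c1 T1 T2 Tp Pf) (i : Bool)
    (Ch : Finset V) (hCh : ∀ v ∈ Ch, v ∈ T2 ∧ pt v = i) :
    ((qtr sd pt false i ∩ (T1 ∪ Pf)).card : ℤ) - ((qtr sd pt true i ∩ (T1 ∪ Pf)).card : ℤ) +
      Ch.card ≤ ((((qtr sd pt false i ∩ T1) ∪ Ch).filter fun x => ∀ w, ¬ N0.Adj x w).card : ℤ) := by
  set X := qtr sd pt false i with hX
  set Y := qtr sd pt true i with hY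
  set Un := ((X ∩ T1) ∪ Ch).filter fun x => ∀ w, ¬ N0.Adj x w with hUn
  set Cov := ((X ∩ T1) ∪ Ch).filter fun x => ¬ ∀ w, ¬ N0.Adj x w with hCov
  have hdis : Disjoint (X ∩ T1) Ch := by
    rw [disjoint_left]
    intro v hv hv'
    exact disjoint_left.1 hI.T2T (hCh v hv').1 (mem_union_left _ (mem_inter.1 hv).2)
  have h1 : (X ∩ T1).card + Ch.card = Un.card + Cov.card := by
    rw [← card_union_of_disjoint hdis]
    exact (card_filter_add_card_filter_not _).symm
  have h2 : Cov.card ≤ (Y ∩ Pf).card := by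
    refine card_le_of_matching hI.N0m _ _ fun a ha => ?_
    rw [hCov, mem_filter, mem_union, mem_inter] at ha
    obtain ⟨h34, h5⟩ := ha
    have h3 : a ∈ X := by
      rcases h34 with h | h
      · exact h.1
      · have h' := hCh a h
        rw [hX, mem_qtr]
        exact ⟨(hI.T2c a h'.1).1, h'.2⟩
    have h4 : a ∉ Pf := by
      rcases h34 with h | h
      · exact disjoint_left.1 hI.TP h.2
      · exact fun h' => disjoint_left.1 hI.T2T (hCh a h).1 (mem_union_right _ h')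
    push Not at h5
    obtain ⟨w, hw⟩ := h5
    obtain ⟨h6, h7⟩ := hI.N0a a w hw
    have h8 : w ∈ Pf := by
      rcases h7 with h7 | h7
      · exact absurd h7.1 h4
      · exact h7.1
    have h9 := hI.Hc a w h6
    rw [hX, mem_qtr] at h3
    refine ⟨w, ?_, hw⟩
    rw [mem_inter, hY, mem_qtr]
    refine ⟨⟨?_, ?_⟩, h8⟩
    · have := h9.1
      rw [h3.1] at this
      cases h : sd w
      · exact absurd h.symm this
      · rfl
    · rw [← h9.2, h3.2]
  have h3 : (X ∩ Pf).card ≤ (Y ∩ T1).card := by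
    refine card_le_of_matching hI.N0m _ _ fun a ha => ?_
    rw [mem_inter] at ha
    obtain ⟨w, hw1, hw2⟩ := hI.N0p a ha.2
    have h9 := hI.Hc a w (hI.N0a a w hw2).1
    have h3 := ha.1
    rw [hX, mem_qtr] at h3
    have h10 : sd w = true := by
      have := h9.1
      rw [h3.1] at this
      cases h : sd w
      · exact absurd h.symm this
      · rfl
    have h11 : w ∈ T1 := by
      rcases mem_union.1 hw1 with h | h
      · exact h
      · have := (hI.T2c w (hI.Tp2 h)).1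
        rw [h10] at this
        exact absurd this (by simp)
    refine ⟨w, ?_, hw2⟩
    rw [mem_inter, hY, mem_qtr]
    exact ⟨⟨h10, by rw [← h9.2, h3.2]⟩, h11⟩
  have h4 : ∀ Z : Finset V, (Z ∩ (T1 ∪ Pf)).card = (Z ∩ T1).card + (Z ∩ Pf).card := by
    intro Z
    rw [inter_union_distrib_left, card_union_of_disjoint]
    exact (hI.TP.mono inter_subset_right inter_subset_right)
  rw [h4, h4]
  omega

/-- one part -/
theorem part (hI : M2C H Fr N0 d K ρ κ δ sd pt Q P2 F2 c1 T1 T2 Tp Pf) (hd : 0 < (d : ℝ))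
    (hρ : 0 < ρ) (hρ1 : ρ ≤ 1) (hκ : 0 < κ) (hκ1 : κ ≤ 1) (hδ0 : 0 ≤ δ)
    (hδ : 32 * δ ≤ (κ * (ρ / 2)) ^ 2) [Nonempty V] (i : Bool) :
    ∃ (mT : ℕ → Finset V) (x y : (Σ _ : ℕ, ℕ) → V),
      (∀ b ∈ P2 ∪ Q (!i), mT b ⊆ T2.filter (fun v => pt v = i ∧ c1 v = b) ∧
        (mT b).card = tau F2 sd pt c1 Tp i b ∧
        Tp.filter (fun v => pt v = i ∧ c1 v = b) ⊆ mT b) ∧
      (∀ b, b ∉ P2 ∪ Q (!i) → mT b = ∅) ∧
      (∀ e ∈ (P2 ∪ Q (!i)).sigma (fun b => range (evn F2 sd pt c1 Tp i b)),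
        ∀ e' ∈ (P2 ∪ Q (!i)).sigma (fun b => range (evn F2 sd pt c1 Tp i b)),
          (x e = x e' → e = e') ∧ (y e = y e' → e = e')) ∧
      ∀ e ∈ (P2 ∪ Q (!i)).sigma (fun b => range (evn F2 sd pt c1 Tp i b)),
        sd (x e) = false ∧ sd (y e) = true ∧ pt (y e) = i ∧ y e ∉ T1 ∪ Pf ∧ e.1 ∉ F2 (y e) ∧
        Fr.Adj (x e) (y e) ∧ (∀ w, ¬ N0.Adj (x e) w) ∧
        (x e ∈ T1 ∨ ∃ b ∈ P2 ∪ Q (!i), x e ∈ mT b) := by
  have hmT : ∀ b, ∃ m : Finset V, (b ∈ P2 ∪ Q (!i) → m ⊆ T2.filter (fun v => pt v = i ∧ c1 v = b) ∧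
      m.card = tau F2 sd pt c1 Tp i b ∧ Tp.filter (fun v => pt v = i ∧ c1 v = b) ⊆ m) ∧
      (b ∉ P2 ∪ Q (!i) → m = ∅) := by
    intro b
    by_cases hb : b ∈ P2 ∪ Q (!i)
    · have h1 := hI.T2n i b hb
      have h0 : Tp.filter (fun v => pt v = i ∧ c1 v = b) ⊆
          T2.filter (fun v => pt v = i ∧ c1 v = b) := filter_subset_filter _ hI.Tp2
      have h2 : tau F2 sd pt c1 Tp i b ≤ (T2.filter fun v => pt v = i ∧ c1 v = b).card := by
        refine max_le (by omega) (card_le_card h0)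
      obtain ⟨m, hm0, hm1, hm2⟩ := exists_subsuperset_card_eq h0
        (show (Tp.filter (fun v => pt v = i ∧ c1 v = b)).card ≤ tau F2 sd pt c1 Tp i b from
          le_max_right _ _) h2
      exact ⟨m, fun _ => ⟨hm1, hm2, hm0⟩, fun h => absurd hb h⟩
    · exact ⟨∅, fun h => absurd h hb, fun _ => rfl⟩
  choose mT hm1 hm2 using hmT
  obtain ⟨E, hE⟩ : ∃ E : Finset (Σ _ : ℕ, ℕ),
    E = (P2 ∪ Q (!i)).sigma (fun b => range (evn F2 sd pt c1 Tp i b)) := ⟨_, rfl⟩
  have hEc : E.card = ∑ b ∈ P2 ∪ Q (!i), evn F2 sd pt c1 Tp i b := by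
    rw [hE, card_sigma]
    simp only [card_range]
  obtain ⟨Ch, hCh⟩ : ∃ Ch : Finset V, Ch = (P2 ∪ Q (!i)).biUnion mT := ⟨_, rfl⟩
  have hChm : ∀ v ∈ Ch, v ∈ T2 ∧ pt v = i ∧ ∃ b ∈ P2 ∪ Q (!i), v ∈ mT b := by
    intro v hv
    rw [hCh, mem_biUnion] at hv
    obtain ⟨b, hb, hv⟩ := hv
    have h1 := mem_filter.1 ((hm1 b hb).1 hv)
    exact ⟨h1.1, h1.2.1, b, hb, hv⟩
  have hChc : Ch.card = ∑ b ∈ P2 ∪ Q (!i), tau F2 sd pt c1 Tp i b := by
    rw [hCh, card_biUnion]
    · exact sum_congr rfl fun b hb => (hm1 b hb).2.1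
    · intro b hb b' hb' hne
      rw [mem_coe] at hb hb'
      show Disjoint (mT b) (mT b')
      rw [disjoint_left]
      intro v hv hv'
      have h1 := (mem_filter.1 ((hm1 b hb).1 hv)).2.2
      have h2 := (mem_filter.1 ((hm1 b' hb').1 hv')).2.2
      exact hne (h1.symm.trans h2)
  obtain ⟨Un, hUn⟩ : ∃ Un : Finset V,
    Un = ((qtr sd pt false i ∩ T1) ∪ Ch).filter fun x => ∀ w, ¬ N0.Adj x w := ⟨_, rfl⟩
  have hcard : E.card ≤ Un.card := by
    have h1 := free_T1 hI i Ch fun v hv => ⟨(hChm v hv).1, (hChm v hv).2.1⟩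
    rw [← hUn, hChc] at h1
    have h2 := hI.hid i
    rw [MIS2KAux.sum_sgv] at h2
    have h3 : ((∑ b ∈ P2 ∪ Q (!i), evn F2 sd pt c1 Tp i b : ℕ) : ℤ) =
        ((∑ b ∈ P2 ∪ Q (!i), tau F2 sd pt c1 Tp i b : ℕ) : ℤ) -
          ∑ b ∈ P2 ∪ Q (!i), qq F2 sd pt i b := by
      push_cast
      rw [← sum_sub_distrib]
      exact sum_congr rfl fun b _ => evn_eq F2 sd pt c1 Tp i b
    rw [hEc]
    omega
  obtain ⟨x, hx1, hx2⟩ := exists_inj E Un hcard
  have hx3 : ∀ e ∈ E, sd (x e) = false ∧ pt (x e) = i ∧ (∀ w, ¬ N0.Adj (x e) w) ∧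
      (x e ∈ T1 ∨ ∃ b ∈ P2 ∪ Q (!i), x e ∈ mT b) := by
    intro e he
    have h0 := hx1 e he
    rw [hUn, mem_filter, mem_union, mem_inter, mem_qtr] at h0
    rcases h0.1 with h | h
    · exact ⟨h.1.1, h.1.2, h0.2, Or.inl h.2⟩
    · have h1 := hChm _ h
      exact ⟨(hI.T2c _ h1.1).1, h1.2.1, h0.2, Or.inr h1.2.2⟩
  have hcol : ∀ e ∈ E, e.1 ∈ P2 ∪ Q (!i) := by
    intro e he
    rw [hE, mem_sigma] at he
    exact he.1
  obtain ⟨y, hy1, hy2⟩ := hall_part E Fr H x hx2 (qtr sd pt true i \ (T1 ∪ Pf))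
    (fun e => us F2 e.1) d (ρ / 2) δ κ hd hκ (by positivity) hκ1 (by linarith) hδ0
    (by
      have h1 : (E.card : ℝ) ≤ ∑ b ∈ P2 ∪ Q (!i), |((qq F2 sd pt i b : ℤ) : ℝ)| + Tp.card := by
        rw [hEc]
        exact evn_sum F2 sd pt c1 Tp i _
      have h2 := hI.tot i
      refine h1.trans (h2.trans (le_of_eq ?_))
      ring)
    (by
      intro e he
      have h1 := hI.Hd (x e) (hx3 e he).1
      rw [(hx3 e he).2.1] at h1
      exact h1)
    (by
      intro e he
      refine hI.F2l e.1 (col_mem (i := i) (hcol e he)))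
    (fun e _ => hI.frd (x e) i) hI.fre hδ
  refine ⟨mT, x, y, hm1, hm2, ?_, ?_⟩
  · intro e he e' he'
    rw [← hE] at he he'
    exact ⟨hx2 e he e' he', hy1 e he e' he'⟩
  · intro e he
    rw [← hE] at he
    have h1 := hx3 e he
    have h2 := hy2 e he
    rw [mem_sdiff, mem_qtr, mem_us] at h2
    exact ⟨h1.1, h2.1.1.1, h2.1.1.2, h2.1.2, h2.2.2, h2.2.1, h1.2.2.1, h1.2.2.2⟩

/-- the set of missed vertices of type P -/
noncomputable def wp (F2 : V → Finset ℕ) (sd pt : V → Bool) (c1 : V → ℕ) (Tp : Finset V)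
    (Q : Bool → Finset ℕ) (P2 : Finset ℕ) (y : Bool → (Σ _ : ℕ, ℕ) → V) (i : Bool) (b : ℕ) : Finset V :=
  if b ∈ P2 ∪ Q (!i) then (range (evn F2 sd pt c1 Tp i b)).image fun k => y i ⟨b, k⟩ else ∅

theorem mem_wp (y : Bool → (Σ _ : ℕ, ℕ) → V) (i : Bool) (b : ℕ) (v : V) :
    v ∈ wp F2 sd pt c1 Tp Q P2 y i b ↔
      ∃ e ∈ (P2 ∪ Q (!i)).sigma (fun b => range (evn F2 sd pt c1 Tp i b)), e.1 = b ∧ y i e = v := by
  unfold wp
  constructor
  · intro h
    by_cases hb : b ∈ P2 ∪ Q (!i)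
    · rw [if_pos hb, mem_image] at h
      obtain ⟨k, hk, h⟩ := h
      exact ⟨⟨b, k⟩, mem_sigma.2 ⟨hb, hk⟩, rfl, h⟩
    · rw [if_neg hb] at h
      exact absurd h (notMem_empty v)
  · rintro ⟨⟨b', k⟩, he, h1, h2⟩
    have h3 := mem_sigma.1 he
    have h4 : b' = b := h1
    subst h4
    rw [if_pos h3.1, mem_image]
    exact ⟨k, h3.2, h2⟩

/-- assembly -/
theorem asmC (hI : M2C H Fr N0 d K ρ κ δ sd pt Q P2 F2 c1 T1 T2 Tp Pf)
    (mT : Bool → ℕ → Finset V) (x y : Bool → (Σ _ : ℕ, ℕ) → V)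
    (h1 : ∀ i, ∀ b ∈ P2 ∪ Q (!i), mT i b ⊆ T2.filter (fun v => pt v = i ∧ c1 v = b) ∧
        (mT i b).card = tau F2 sd pt c1 Tp i b ∧
        Tp.filter (fun v => pt v = i ∧ c1 v = b) ⊆ mT i b)
    (h2 : ∀ i, ∀ b, b ∉ P2 ∪ Q (!i) → mT i b = ∅)
    (h3 : ∀ i, ∀ e ∈ (P2 ∪ Q (!i)).sigma (fun b => range (evn F2 sd pt c1 Tp i b)),
        ∀ e' ∈ (P2 ∪ Q (!i)).sigma (fun b => range (evn F2 sd pt c1 Tp i b)),
          (x i e = x i e' → e = e') ∧ (y i e = y i e' → e = e'))
    (h4 : ∀ i, ∀ e ∈ (P2 ∪ Q (!i)).sigma (fun b => range (evn F2 sd pt c1 Tp i b)),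
        sd (x i e) = false ∧ sd (y i e) = true ∧ pt (y i e) = i ∧ y i e ∉ T1 ∪ Pf ∧
        e.1 ∉ F2 (y i e) ∧ Fr.Adj (x i e) (y i e) ∧ (∀ w, ¬ N0.Adj (x i e) w) ∧
        (x i e ∈ T1 ∨ ∃ b ∈ P2 ∪ Q (!i), x i e ∈ mT i b)) :
    ∃ (W2 : ℕ → Finset V) (N1 : SimpleGraph V),
      M2CO Fr N0 N1 K sd pt Q P2 F2 c1 T1 T2 Tp Pf W2 := by
  have mT' : ∀ i b v, v ∈ mT i b → b ∈ P2 ∪ Q (!i) ∧ v ∈ T2 ∧ pt v = i ∧ c1 v = b := by
    intro i b v hv
    by_cases hb : b ∈ P2 ∪ Q (!i)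
    · have := mem_filter.1 ((h1 i b hb).1 hv)
      exact ⟨hb, this.1, this.2.1, this.2.2⟩
    · rw [h2 i b hb] at hv
      exact absurd hv (notMem_empty v)
  have wP' : ∀ i b v, v ∈ wp F2 sd pt c1 Tp Q P2 y i b → b ∈ P2 ∪ Q (!i) ∧ sd v = true ∧ pt v = i ∧
      v ∉ T1 ∪ Pf ∧ b ∉ F2 v := by
    intro i b v hv
    rw [mem_wp] at hv
    obtain ⟨e, he, rfl, rfl⟩ := hv
    have h5 := h4 i e he
    exact ⟨(mem_sigma.1 he).1, h5.2.1, h5.2.2.1, h5.2.2.2.1, h5.2.2.2.2.1⟩
  obtain ⟨W2, hW2⟩ : ∃ W2 : ℕ → Finset V, ∀ b v, v ∈ W2 b ↔ (∃ i, v ∈ mT i b) ∨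
      ∃ i, v ∈ wp F2 sd pt c1 Tp Q P2 y i b := by
    refine ⟨fun b => (mT false b ∪ mT true b) ∪ (wp F2 sd pt c1 Tp Q P2 y false b ∪
      wp F2 sd pt c1 Tp Q P2 y true b), ?_⟩
    intro b v
    simp only [mem_union, Bool.exists_bool]
  have hW2T : ∀ b v, v ∈ W2 b → sd v = false → v ∈ mT (pt v) b := by
    intro b v hv hs
    rcases (hW2 b v).1 hv with ⟨i, h⟩ | ⟨i, h⟩
    · have h5 := mT' i b v h
      rw [h5.2.2.1]
      exact h
    · have h5 := (wP' i b v h).2.1
      rw [hs] at h5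
      exact absurd h5 (by simp)
  have hW2P : ∀ b v, v ∈ W2 b → sd v = true → v ∈ wp F2 sd pt c1 Tp Q P2 y (pt v) b := by
    intro b v hv hs
    rcases (hW2 b v).1 hv with ⟨i, h⟩ | ⟨i, h⟩
    · have h5 := (hI.T2c v (mT' i b v h).2.1).1
      rw [hs] at h5
      exact absurd h5 (by simp)
    · have h5 := wP' i b v h
      rw [h5.2.2.1]
      exact h
  obtain ⟨N1, aN1⟩ : ∃ N1 : SimpleGraph V, ∀ v w, N1.Adj v w ↔ ∃ i, ∃ e ∈ (P2 ∪ Q (!i)).sigma
      (fun b => range (evn F2 sd pt c1 Tp i b)), (v = x i e ∧ w = y i e) ∨ (w = x i e ∧ v = y i e) := ⟨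
    { Adj := fun v w => ∃ i, ∃ e ∈ (P2 ∪ Q (!i)).sigma
        (fun b => range (evn F2 sd pt c1 Tp i b)), (v = x i e ∧ w = y i e) ∨ (w = x i e ∧ v = y i e)
      symm := ⟨fun v w ⟨i, e, he, h⟩ => ⟨i, e, he, h.symm⟩⟩
      loopless := ⟨fun v ⟨i, e, he, h⟩ => by
        have h1 := h4 i e he
        rcases h with h | h
        · rw [← h.1, ← h.2] at h1
          rw [h1.1] at h1
          exact absurd h1.2.1 (by simp)
        · rw [← h.1, ← h.2] at h1
          rw [h1.1] at h1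
          exact absurd h1.2.1 (by simp)⟩ }, fun v w => Iff.rfl⟩
  have hN0 : ∀ v w, N0.Adj v w → sd v = true → v ∈ T1 ∪ Pf := by
    intro v w h hs
    rw [mem_union]
    rcases (hI.N0a v w h).2 with h | h
    · exact Or.inr h.1
    · rcases mem_union.1 h.2 with h | h
      · exact Or.inl h
      · have := (hI.T2c v (hI.Tp2 h)).1
        rw [hs] at this
        exact absurd this (by simp)
  -- parts of `x`
  have hxp : ∀ i, ∀ e ∈ (P2 ∪ Q (!i)).sigma (fun b => range (evn F2 sd pt c1 Tp i b)),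
      pt (x i e) = i := by
    intro i e he
    have h5 := h4 i e he
    exact (hI.Hc _ _ (hI.FrH _ _ h5.2.2.2.2.2.1)).2.trans h5.2.2.1
  refine ⟨W2, N1, ?_, ?_, ?_, ?_, ?_, ?_, ?_, ?_, ?_⟩
  · -- W
    intro b v hv
    cases hs : sd v
    · have h5 := mT' _ b v (hW2T b v hv hs)
      have h6 := hI.T2c v h5.2.1
      have h7 := disjoint_left.1 hI.T2T h5.2.1
      rw [mem_union, not_or] at h7
      refine ⟨h5.1, ?_, h7.1, h7.2⟩
      rw [← h5.2.2.2]
      exact h6.2.2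
    · have h5 := wP' _ b v (hW2P b v hv hs)
      have h7 := h5.2.2.2.1
      rw [mem_union, not_or] at h7
      exact ⟨h5.1, h5.2.2.2.2, h7.1, h7.2⟩
  · -- one
    intro b b' v hv hv'
    cases hs : sd v
    · have h5 := mT' _ b v (hW2T b v hv hs)
      have h6 := mT' _ b' v (hW2T b' v hv' hs)
      exact h5.2.2.2.symm.trans h6.2.2.2
    · have h5 := hW2P b v hv hs
      have h6 := hW2P b' v hv' hs
      rw [mem_wp] at h5 h6
      obtain ⟨e, he, h7, h8⟩ := h5
      obtain ⟨e', he', h9, h10⟩ := h6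
      rw [← h7, ← h9, (h3 _ e he e' he').2 (h8.trans h10.symm)]
  · -- bal
    intro i b hb
    have k1 : (qtr sd pt false i \ (us F2 b ∪ W2 b)).card + tau F2 sd pt c1 Tp i b =
        (qtr sd pt false i \ us F2 b).card := by
      rw [← (h1 i b hb).2.1, ← card_union_of_disjoint]
      · congr 1
        ext v
        rw [mem_union, mem_sdiff, mem_sdiff, mem_union, mem_us, mem_qtr]
        constructor
        · rintro (⟨h5, h6⟩ | h5)
          · exact ⟨h5, fun h => h6 (Or.inl h)⟩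
          · have h6 := mT' i b v h5
            have h7 := hI.T2c v h6.2.1
            refine ⟨⟨h7.1, h6.2.2.1⟩, ?_⟩
            rw [← h6.2.2.2]
            exact h7.2.2
        · rintro ⟨h5, h6⟩
          by_cases h7 : v ∈ mT i b
          · exact Or.inr h7
          · refine Or.inl ⟨h5, ?_⟩
            rintro (h | h)
            · exact h6 h
            · have h8 := hW2T b v h h5.1
              rw [h5.2] at h8
              exact h7 h8
      · rw [disjoint_left]
        intro v hv hv'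
        rw [mem_sdiff, mem_union] at hv
        exact hv.2 (Or.inr ((hW2 b v).2 (Or.inl ⟨i, hv'⟩)))
    have kc : (wp F2 sd pt c1 Tp Q P2 y i b).card = evn F2 sd pt c1 Tp i b := by
      unfold wp
      rw [if_pos hb, card_image_of_injOn, card_range]
      intro k hk k' hk' h
      rw [mem_coe] at hk hk'
      have h5 := (h3 i ⟨b, k⟩ (mem_sigma.2 ⟨hb, hk⟩) ⟨b, k'⟩ (mem_sigma.2 ⟨hb, hk'⟩)).2 h
      exact eq_of_heq (Sigma.mk.inj h5).2
    have k2 : (qtr sd pt true i \ (us F2 b ∪ W2 b)).card + evn F2 sd pt c1 Tp i b =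
        (qtr sd pt true i \ us F2 b).card := by
      rw [← kc, ← card_union_of_disjoint]
      · congr 1
        ext v
        rw [mem_union, mem_sdiff, mem_sdiff, mem_union, mem_us, mem_qtr]
        constructor
        · rintro (⟨h5, h6⟩ | h5)
          · exact ⟨h5, fun h => h6 (Or.inl h)⟩
          · have h6 := wP' i b v h5
            exact ⟨⟨h6.2.1, h6.2.2.1⟩, h6.2.2.2.2⟩
        · rintro ⟨h5, h6⟩
          by_cases h7 : v ∈ wp F2 sd pt c1 Tp Q P2 y i b
          · exact Or.inr h7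
          · refine Or.inl ⟨h5, ?_⟩
            rintro (h | h)
            · exact h6 h
            · have h8 := hW2P b v h h5.1
              rw [h5.2] at h8
              exact h7 h8
      · rw [disjoint_left]
        intro v hv hv'
        rw [mem_sdiff, mem_union] at hv
        exact hv.2 (Or.inr ((hW2 b v).2 (Or.inr ⟨i, hv'⟩)))
    have k3 : qq F2 sd pt i b = ((qtr sd pt false i \ us F2 b).card : ℤ) -
      ((qtr sd pt true i \ us F2 b).card : ℤ) := rfl
    have k4 := evn_eq F2 sd pt c1 Tp i b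
    omega
  · -- T
    intro b v hv hs
    have h5 := mT' _ b v (hW2T b v hv hs)
    exact ⟨h5.2.1, h5.2.2.2⟩
  · -- Tw
    intro v hv
    have h5 := hI.T2c v (hI.Tp2 hv)
    exact (hW2 _ v).2 (Or.inl ⟨pt v, (h1 (pt v) (c1 v) h5.2.1).2.2 (mem_filter.2 ⟨hv, rfl, rfl⟩)⟩)
  · -- c
    intro b
    have h5 : W2 b ⊆ (mT false b ∪ wp F2 sd pt c1 Tp Q P2 y false b) ∪
        (mT true b ∪ wp F2 sd pt c1 Tp Q P2 y true b) := by
      intro v hv
      rw [mem_union, mem_union, mem_union]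
      rcases (hW2 b v).1 hv with ⟨i, h⟩ | ⟨i, h⟩
      · cases i
        · exact Or.inl (Or.inl h)
        · exact Or.inr (Or.inl h)
      · cases i
        · exact Or.inl (Or.inr h)
        · exact Or.inr (Or.inr h)
    have h6 : ∀ i, (mT i b ∪ wp F2 sd pt c1 Tp Q P2 y i b).card ≤ K := by
      intro i
      refine (card_union_le _ _).trans ?_
      by_cases hb : b ∈ P2 ∪ Q (!i)
      · have h7 : (wp F2 sd pt c1 Tp Q P2 y i b).card ≤ evn F2 sd pt c1 Tp i b := by
          unfold wp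
          rw [if_pos hb]
          refine card_image_le.trans ?_
          rw [card_range]
        rw [(h1 i b hb).2.1]
        have h8 := hI.qK i b hb
        have h9 := tau_evn_le F2 sd pt c1 Tp i b
        omega
      · have h7 : (wp F2 sd pt c1 Tp Q P2 y i b).card = 0 := by
          unfold wp
          rw [if_neg hb, card_empty]
        rw [h2 i b hb, card_empty, h7]
        omega
    have h7 := h6 false
    have h8 := h6 true
    have h9 := (card_le_card h5).trans (card_union_le _ _)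
    omega
  · -- N1F
    intro v w h
    rw [aN1] at h
    obtain ⟨i, e, he, ⟨rfl, rfl⟩ | ⟨rfl, rfl⟩⟩ := h
    · exact (h4 i e he).2.2.2.2.2.1
    · exact (h4 i e he).2.2.2.2.2.1.symm
  · -- N1m
    intro v
    refine dg_le_one fun a b ha hb => ?_
    rw [SimpleGraph.sup_adj] at ha hb
    have h0 : ∀ a b, N0.Adj v a → N1.Adj v b → a = b := by
      intro a b ha hb
      rw [aN1] at hb
      obtain ⟨i, e, he, ⟨h5, h6⟩ | ⟨h5, h6⟩⟩ := hb
      · rw [h5] at ha
        exact absurd ha ((h4 i e he).2.2.2.2.2.2.1 a)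
      · have h7 := hN0 v a ha (by rw [h6]; exact (h4 i e he).2.1)
        rw [h6] at h7
        exact absurd h7 (h4 i e he).2.2.2.1
    rcases ha with ha | ha
    · rcases hb with hb | hb
      · exact dg_one hI.N0m ha hb
      · exact h0 a b ha hb
    · rcases hb with hb | hb
      · exact (h0 b a hb ha).symm
      · rw [aN1] at ha hb
        obtain ⟨i, e, he, ha⟩ := ha
        obtain ⟨i', e', he', hb⟩ := hb
        have hii : i = i' := by
          have p1 : pt v = i := by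
            rcases ha with ⟨h5, _⟩ | ⟨_, h5⟩
            · rw [h5]; exact hxp i e he
            · rw [h5]; exact (h4 i e he).2.2.1
          have p2 : pt v = i' := by
            rcases hb with ⟨h5, _⟩ | ⟨_, h5⟩
            · rw [h5]; exact hxp i' e' he'
            · rw [h5]; exact (h4 i' e' he').2.2.1
          exact p1.symm.trans p2
        subst hii
        rcases ha with ⟨h5, h6⟩ | ⟨h5, h6⟩
        · rcases hb with ⟨h7, h8⟩ | ⟨h7, h8⟩
          · rw [h6, h8, (h3 i e he e' he').1 (by rw [← h5, ← h7])]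
          · have h9 := (h4 i e he).1
            rw [← h5, h8, (h4 i e' he').2.1] at h9
            exact absurd h9 (by simp)
        · rcases hb with ⟨h7, h8⟩ | ⟨h7, h8⟩
          · have h9 := (h4 i e' he').1
            rw [← h7, h6, (h4 i e he).2.1] at h9
            exact absurd h9 (by simp)
          · rw [h5, h7, (h3 i e he e' he').2 (by rw [← h6, ← h8])]
  · -- N1p
    intro b v hv hs
    have h5 := hW2P b v hv hs
    rw [mem_wp] at h5
    obtain ⟨e, he, rfl, h6⟩ := h5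
    have h7 := h4 _ e he
    refine ⟨x (pt v) e, (aN1 _ _).2 ⟨pt v, e, he, Or.inr ⟨rfl, h6.symm⟩⟩, h7.1, ?_⟩
    rcases h7.2.2.2.2.2.2.2 with h8 | ⟨b', hb', h8⟩
    · exact Or.inl h8
    · exact Or.inr ⟨b', (hW2 _ _).2 (Or.inl ⟨pt v, h8⟩)⟩

end

/-- Block MIS2C -/
theorem stmt_MIS2C : Stmt_MIS2C.{u} := by
  intro ρ κ hρ hρ1 hκ hκ1
  refine ⟨(κ * (ρ / 2)) ^ 2 / 32, by positivity, ?_⟩
  intro V _ H Fr N0 d K sd pt Q P2 F2 c1 T1 T2 Tp Pf hd hI
  have hd' : 0 < (d : ℝ) := by exact_mod_cast hd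
  rcases isEmpty_or_nonempty V with hV | hV
  · refine ⟨fun _ => ∅, ⊥, ⟨?_, ?_, ?_, ?_, ?_, ?_, ?_, ?_, ?_⟩⟩
    · exact fun b v _ => hV.elim v
    · exact fun b b' v _ _ => hV.elim v
    · intro i b _
      rw [Finset.eq_empty_of_isEmpty (qtr sd pt false i \ _),
        Finset.eq_empty_of_isEmpty (qtr sd pt true i \ _)]
    · exact fun b v _ _ => hV.elim v
    · exact fun v _ => hV.elim v
    · intro b
      simp
    · exact fun v w _ => hV.elim v
    · exact fun v => hV.elim v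
    · exact fun b v _ _ => hV.elim v
  · choose mT x y h1 h2 h3 h4 using fun i => part hI hd' hρ hρ1 hκ hκ1 (by positivity)
      (by linarith) i
    exact asmC hI mT x y h1 h2 h3 h4

end Pool.Agent.Work.MP_db9399_iv_helper72
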