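import Pool.Agent.Work.MP_db9399_da_helper72.Mid

/-!
# MP_db9399, B15 (iv): statements of the blocks of LOCB3 (helper72)
-/

set_option autoImplicit false

namespace Pool.Agent.Work.MP_db9399_iv_helper72

open Finset Classical
open Pool.Agent.Work.MP_db9399_da_helper72
open Pool.Agent.Work.MP_db9399_all (nb)
open Pool.Agent.Work.MP_db9399_lt (us)
open Pool.Agent.Work.MP_db9399_da

universe u

/-- STA with additional forbidden colours `Fz` for the leftover edges. -/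
def Stmt_STA3 : Prop :=
  ∀ (C σ π κ lam ι : ℝ) (N2 : ℕ), 1 ≤ C → (σ = 2 ∨ σ = 4) → 0 < π → π ≤ 1 / 100 → 0 < κ →
    κ ≤ 1 / 100 → 0 < lam → lam ≤ 1 → 0 < ι → 1 ≤ N2 * κ → ∃ r1 : ℝ, 0 < r1 ∧ r1 ≤ 1 ∧
    ∀ ε1 : ℝ, 0 < ε1 → ∃ (θ : ℝ) (d0 : ℕ), 0 < θ ∧
    ∀ (V : Type u) [Fintype V] (G N0 : SimpleGraph V) (d D s : ℕ) (sd pt : V → Bool)
      (Q : Bool → Finset ℕ) (P2 : Finset ℕ) (F Fz : V → Finset ℕ) (W : ℕ → Finset V)
      (Zs : Finset (Finset V)) (par : Finset V → Prop), d0 ≤ d → Zs.card ≤ 10 →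
      SI G N0 d D s C σ π κ θ sd pt Q P2 F W → (∀ v, ((Fz v).card : ℝ) ≤ θ * d) →
      RO G par r1 (1 / (2 * C)) ε1 →
      (∀ b ∈ PP d Q P2, par (univ.filter fun v => b ∈ F v ∨ v ∈ W b)) →
      ∃ (U Con2 : SimpleGraph V) (L : V → Finset ℕ) (t : V → V → ℕ),
        SO G N0 U Con2 d κ (1 / N2) lam ι sd pt Q P2 F W Zs L t ∧ ∀ v, Disjoint (L v) (Fz v)

end Pool.Agent.Work.MP_db9399_iv_helper72
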