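import Pool.Agent.Work.MP_db9399_iv_helper72.MIS1C
import Pool.Agent.Work.MP_db9399_iv_helper72.MIS2C
import Pool.Agent.Work.MP_db9399_iv_helper72.LOCM3
import Pool.Agent.Work.MP_db9399_iv_helper72.STA3
import Pool.Agent.Work.MP_db9399_da_helper73.SPLIT
import Pool.Agent.Work.MP_db9399_da_helper22.LAM
import Pool.Agent.Work.MP_db9399_da_helper93.STB
import Pool.Agent.Work.MP_db9399_da_helper93.RB
import Pool.Agent.Work.MP_db9399_da_helper49.RP
import Pool.Agent.Work.MP_db9399_da_helper46.CRF
import Pool.Agent.Work.MP_db9399_bp_helper22.Perm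

/-!
# LOCB3 (helper72)
-/

set_option autoImplicit false

namespace Pool.Agent.Work.MP_db9399_iv_helper72

open Finset Classical
open Pool.Agent.Work.MP_db9399_da_helper72
open Pool.Agent.Work.MP_db9399_all (nb)
open Pool.Agent.Work.MP_db9399_lt (us)
open Pool.Agent.Work.MP_db9399_da

universe u

theorem locb3 (hL : Stmt_LOCM3.{u}) : Stmt_LOCB3.{u} := by
  intro C ρ hC hρ hρ1
  obtain ⟨π0, hπ0, hL1⟩ := hL C ρ hC hρ hρ1
  refine ⟨π0, hπ0, ?_⟩
  intro π hπ hπ1
  obtain ⟨κ0, hκ0, hL2⟩ := hL1 π hπ hπ1
  refine ⟨κ0, hκ0, ?_⟩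
  intro κ hκ hκ1
  obtain ⟨θm, dm, hθm, hL3⟩ := hL2 κ hκ hκ1
  obtain ⟨θ, hθ⟩ : ∃ x : ℝ, x = min (θm / 4) (min (ρ / 4) (1 / 4)) := ⟨_, rfl⟩
  have hθ0 : 0 < θ := by
    rw [hθ]
    exact lt_min (by positivity) (lt_min (by positivity) (by norm_num))
  have ht1 : θ ≤ θm / 4 := by rw [hθ]; exact min_le_left _ _
  have ht2 : θ ≤ ρ / 4 := by rw [hθ]; exact (min_le_right _ _).trans (min_le_left _ _)
  have ht4 : θ ≤ 1 / 4 := by rw [hθ]; exact (min_le_right _ _).trans (min_le_right _ _)
  refine ⟨θ, dm + 10, hθ0, ?_⟩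
  intro V _ G d sd pt Q P2 F c0 c1 T1 T2 hd hI hB
  rcases isEmpty_or_nonempty V with hV | hV
  · exact ⟨fun v => hV.elim v, fun v => hV.elim v, fun v => hV.elim v, fun v => hV.elim v,
      fun v => hV.elim v, fun v => hV.elim v⟩
  have hdR : (dm : ℝ) + 10 ≤ d := by exact_mod_cast hd
  have hp1 : (0 : ℝ) ≤ dm := Nat.cast_nonneg _
  have hd10 : (10 : ℝ) ≤ d := by linarith
  have hd0 : (0 : ℝ) < d := by linarith
  have hθmd : θ * (d : ℝ) ≤ θm / 4 * d := mul_le_mul_of_nonneg_right ht1 hd0.le
  have hθmd0 : 0 ≤ θm * (d : ℝ) := by positivity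
  obtain ⟨W, Tp, Pf, N0, hW⟩ := mis1c hB hI.load (by linarith) hd0
  -- number of vertices
  have hVl : d + 2 ≤ Fintype.card V := by
    obtain ⟨v⟩ := hV
    have hdv : ∀ v, 3 / 4 * (d : ℝ) ≤ ((nb G v).card : ℝ) := by
      intro v
      have h1 : ((nb G v).card : ℝ) + (F v).card = d := by exact_mod_cast hB.deg v
      have h2 := hI.Fx v
      have h3 : θ * (d : ℝ) ≤ 1 / 4 * d := mul_le_mul_of_nonneg_right ht4 hd0.le
      linarith
    have hne : (nb G v).Nonempty := by
      rw [← card_pos]
      have h1 := hdv v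
      have : (0 : ℝ) < (nb G v).card := by linarith
      exact_mod_cast this
    obtain ⟨w, hw⟩ := hne
    have hvw : G.Adj v w := (mem_filter.1 hw).2
    have hdis : Disjoint (nb G v) (nb G w) := by
      rw [disjoint_left]
      intro x h1 h2
      have h3 := hB.bip v x (mem_filter.1 h1).2
      have h4 := hB.bip w x (mem_filter.1 h2).2
      have h5 := hB.bip v w hvw
      rw [bne h5] at h4
      rw [bne h3] at h4
      exact h4 rfl
    have h1 := card_le_univ (nb G v ∪ nb G w)
    rw [card_union_of_disjoint hdis] at h1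
    have h2 : ((nb G v).card : ℝ) + (nb G w).card ≤ Fintype.card V := by exact_mod_cast h1
    have h3 := hdv v
    have h4 := hdv w
    have h5 : ((d + 2 : ℕ) : ℝ) ≤ Fintype.card V := by
      push_cast
      linarith
    exact_mod_cast h5
  refine hL3 V G N0 d sd pt Q P2 F W T1 T2 Tp Pf c0 c1 (by omega) ?_
  exact
    { VC := hI.VC
      Vl := hVl
      Flt := fun v b hb => mem_range.2 (hI.Flt v b hb)
      Fx := fun v => (hI.Fx v).trans (by linarith)
      load := fun b => (hI.load b).trans (by linarith)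
      Qlt := hI.Qlt, Plt := hI.Plt, QQ := hI.QQ, QP := hI.QP, Qc := hI.Qc, Pc := hI.Pc
      FQ := hI.FQ
      cutG := cutG_of hI.cutG
      cutP := cutP_of hI.cutP
      bip := hB.bip
      deg := fun v => by
        rw [← dg_nb]
        exact hB.deg v
      crd := by
        intro v
        have h1 := hB.dgp v (pt v)
        have h2 : dg (crs G sd pt) v univ = (nb G v ∩ prt pt (pt v)).card := by
          unfold dg nb prt crs
          congr 1
          ext w
          simp only [mem_filter, mem_inter, mem_univ, true_and]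
          constructor
          · rintro ⟨h3, _, h5⟩
            exact ⟨h3, h5.symm⟩
          · rintro ⟨h3, h4⟩
            exact ⟨h3, hB.bip v w h3, h4.symm⟩
        rw [h2]
        exact h1.trans (by linarith)
      eqs := hB.eqs
      prl := prl_of hB.eqs hB.siz (by
        have : 10 ≤ d := by exact_mod_cast hd10
        omega)
      sgQ := by
        intro i b hb
        exact (hI.sgQ i b (by rw [union_comm]; exact hb)).trans (by linarith)
      sl1 := by
        intro i
        rw [union_comm]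
        exact hI.sl1 i
      WF := hW.WF
      Wc := fun b hb => (hW.Wc b hb).trans (by linarith)
      bal := hW.bal
      one := hW.one
      TPW := hW.TPW
      T1W := hW.T1W
      TP := hW.TP
      T2T := by
        rw [disjoint_union_right]
        exact ⟨hB.T12.symm, hW.T2T⟩
      Pfc := hW.Pfc.trans (by linarith)
      sgn := by
        intro i
        rw [MIS2KAux.sum_sgv]
        have e : ∀ β, (qtr sd pt β i ∩ (T1 ∪ Pf)).card =
            (T1 ∩ qtr sd pt β i).card + (Pf ∩ qtr sd pt β i).card := by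
          intro β
          rw [inter_comm, union_inter_distrib_right, card_union_of_disjoint]
          exact hW.TP.mono inter_subset_left inter_subset_left
        rw [e, e]
        have h1 := hB.sgT i
        rw [union_comm (Q (!i)) P2] at h1
        have h2 : ∀ β, ((Pf ∩ qtr sd pt β i).card : ℝ) ≤ 2 * (θ * d) := by
          intro β
          refine le_trans ?_ hW.Pfc
          exact_mod_cast card_le_card inter_subset_left
        have h3 := h2 false
        have h4 := h2 true
        have h5 : (0 : ℝ) ≤ ((Pf ∩ qtr sd pt false i).card : ℝ) := Nat.cast_nonneg _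
        have h6 : (0 : ℝ) ≤ ((Pf ∩ qtr sd pt true i).card : ℝ) := Nat.cast_nonneg _
        rw [abs_le] at h1 ⊢
        push_cast at h1 ⊢
        constructor <;> linarith [h1.1, h1.2]
      unm := hB.unm
      Tp2 := hW.Tp2
      Tpc := hW.Tpc.trans (by linarith)
      N0a := by
        intro v w h
        have h1 := hW.N0a v w h
        exact ⟨⟨h1.1, hB.bip v w h1.1, h1.2.1⟩, h1.2.2⟩
      N0m := hW.N0m
      N0p := hW.N0p
      c0Q := hB.c0Q
      c2P := hB.c2P
      c2F := fun v hv => hB.c1F v (mem_union_right _ hv)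
      pc := hB.pc
      n2 := hB.n2
      nQ := hB.nQ }

theorem locm3 : Stmt_LOCM3.{u} :=
  stmt_LOCM3
    (stmt_STA3 MP_db9399_da_helper73.stmt_SPLIT MP_db9399_da_helper22.stmt_LAM)
    MP_db9399_da_helper93.stmt_STB
    (MP_db9399_da_helper93.stmt_RB MP_db9399_bp_helper22.stmt_PERM)
    (MP_db9399_da_helper49.stmt_RP
      (MP_db9399_da_helper93.stmt_RB MP_db9399_bp_helper22.stmt_PERM))
    stmt_MIS2C
    MP_db9399_da.helper46.stmt_CRF

/-- LOCB3 without hypotheses -/
theorem stmt_LOCB3 : Stmt_LOCB3.{u} := locb3 locm3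

end Pool.Agent.Work.MP_db9399_iv_helper72
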