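import Pool.Agent.Work.MP_db9399_da_helper46.LOCN
import Pool.Agent.Work.MP_db9399_da_helper46.LOCNU
import Pool.Agent.Work.MP_db9399_iv_helper72.Local3

/-!
# LOCN3: pieces of type N with the `ℓ¹` bound (helper72, after helper46's LOCN)
-/

set_option autoImplicit false

namespace Pool.Agent.Work.MP_db9399_iv_helper72

open Finset Classical
open Pool.Agent.Work.MP_db9399_all (nb)
open Pool.Agent.Work.MP_db9399_da_helper72
open Pool.Agent.Work.MP_db9399_da_helper93 (SG sgs sum_sgv sgp_union qq_sgp dgU)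
open Pool.Agent.Work.MP_db9399_da.helper46
open Pool.Agent.Work.MP_db9399_lt (us)
open Pool.Agent.Work.MP_db9399_da (sgp qtr prt LI LN PEF LI3 Stmt_LOCN3)

universe u

variable {V : Type u} [Fintype V]

/-- missed vertices of the rounds of stage B, `ℓ¹` version -/
theorem missL [Nonempty V] (K : ℕ) (sd pt : V → Bool) (Pi : Bool → Finset ℕ)
    (F2 : V → Finset ℕ) (M1 : Finset V) (hq : ∀ i, ∀ b ∈ Pi i, |qq F2 sd pt i b| ≤ K)
    (hsz : ∀ β i, ∀ b ∈ Pi i,
      ∑ b' ∈ Pi i, (qq F2 sd pt i b').natAbs ≤ (qt sd pt β i \ (us F2 b ∪ M1)).card) :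
    ∃ W2 : ℕ → Finset V, (∀ b, ∀ v ∈ W2 b, b ∈ Pi (pt v) ∧ b ∉ F2 v ∧ v ∉ M1) ∧
      (∀ b, (W2 b).card ≤ 2 * K) ∧ (∀ v, ((Pi (pt v)).filter fun b => v ∈ W2 b).card ≤ 1) ∧
      ∀ i, ∀ b ∈ Pi i, ((qt sd pt false i \ us F2 b) \ W2 b).card =
        ((qt sd pt true i \ us F2 b) \ W2 b).card := by
  set qf : Bool × ℕ × ℕ → Bool × Bool :=
    fun j => (decide (qq F2 sd pt j.1 j.2.1 < 0), j.1) with hqf
  set J : Finset (Bool × ℕ × ℕ) :=
    ((univ : Finset Bool) ×ˢ ((Pi false ∪ Pi true) ×ˢ range K)).filter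
      (fun j => j.2.1 ∈ Pi j.1 ∧ j.2.2 < (qq F2 sd pt j.1 j.2.1).natAbs) with hJ
  have hJm : ∀ i b k, (i, b, k) ∈ J ↔ b ∈ Pi i ∧ k < (qq F2 sd pt i b).natAbs := by
    intro i b k
    rw [hJ, mem_filter, mem_product, mem_product, mem_union, mem_range]
    simp only [mem_univ, true_and]
    constructor
    · rintro ⟨_, h⟩
      exact h
    · intro h
      refine ⟨⟨?_, ?_⟩, h⟩
      · cases i
        · exact Or.inl h.1
        · exact Or.inr h.1
      · have h1 := hq i b h.1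
        rw [abs_le] at h1
        omega
  obtain ⟨f, hf1, hf2⟩ := sdrq qf (fun v => (sd v, pt v))
    (fun j => qt sd pt (qf j).1 (qf j).2 \ (us F2 j.2.1 ∪ M1))
    (by
      intro j v hv
      rw [mem_sdiff, mem_qt] at hv
      exact Prod.ext hv.1.1 hv.1.2) J
    (by
      rintro ⟨i, b, k⟩ hj
      rw [hJm] at hj
      refine le_trans ?_ (hsz _ _ b hj.1)
      have h1 : (J.filter fun k' => qf k' = qf (i, b, k)) ⊆
          ((Pi i).sigma fun b' => range (qq F2 sd pt i b').natAbs).image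
            (fun e => (i, e.1, e.2)) := by
        rintro ⟨i', b', k'⟩ h
        rw [mem_filter, hJm] at h
        have h2 : i' = i := (Prod.ext_iff.1 h.2).2
        subst h2
        rw [mem_image]
        exact ⟨⟨b', k'⟩, mem_sigma.2 ⟨h.1.1, mem_range.2 h.1.2⟩, rfl⟩
      refine (card_le_card h1).trans (card_image_le.trans ?_)
      rw [card_sigma]
      simp only [card_range]
      exact le_rfl)
  have hf3 : ∀ i b k, (i, b, k) ∈ J → sd (f (i, b, k)) = decide (qq F2 sd pt i b < 0) ∧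
      pt (f (i, b, k)) = i ∧ b ∉ F2 (f (i, b, k)) ∧ f (i, b, k) ∉ M1 := by
    intro i b k hj
    have := hf1 _ hj
    rw [mem_sdiff, mem_qt, mem_union, mem_us, not_or] at this
    exact ⟨this.1.1, this.1.2, this.2.1, this.2.2⟩
  set W2 : ℕ → Finset V := fun b => (J.filter fun j => j.2.1 = b).image f with hW2
  have hWm : ∀ b v, v ∈ W2 b ↔ ∃ i k, (i, b, k) ∈ J ∧ f (i, b, k) = v := by
    intro b v
    simp only [hW2, mem_image, mem_filter]
    constructor
    · rintro ⟨⟨i, b', k⟩, ⟨h1, h2⟩, h3⟩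
      have h4 : b' = b := h2
      subst h4
      exact ⟨i, k, h1, h3⟩
    · rintro ⟨i, k, h1, h2⟩
      exact ⟨(i, b, k), ⟨h1, rfl⟩, h2⟩
  refine ⟨W2, ?_, ?_, ?_, ?_⟩
  · intro b v hv
    obtain ⟨i, k, h1, rfl⟩ := (hWm b v).1 hv
    have h2 := hf3 i b k h1
    exact ⟨by rw [h2.2.1]; exact ((hJm i b k).1 h1).1, h2.2.2.1, h2.2.2.2⟩
  · intro b
    refine card_image_le.trans ?_
    have h1 : (J.filter fun j => j.2.1 = b) ⊆
        (univ : Finset Bool) ×ˢ (({b} : Finset ℕ) ×ˢ range K) := by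
      rintro ⟨i', b', k'⟩ h
      rw [mem_filter] at h
      have h2 : b' = b := h.2
      have h3 := (mem_filter.1 h.1).1
      rw [mem_product, mem_product] at h3 ⊢
      exact ⟨mem_univ _, mem_singleton.2 h2, h3.2.2⟩
    refine (card_le_card h1).trans ?_
    rw [card_product, card_product, card_singleton, card_range, card_univ, Fintype.card_bool,
      one_mul]
  · intro v
    rw [card_le_one]
    intro b hb b' hb'
    rw [mem_filter, hWm] at hb hb'
    obtain ⟨_, i, k, h1, h2⟩ := hb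
    obtain ⟨_, i', k', h1', h2'⟩ := hb'
    have := hf2 _ h1 _ h1' (h2.trans h2'.symm)
    exact congrArg (fun j : Bool × ℕ × ℕ => j.2.1) this
  · intro i b hb
    have key : ∀ β, ((qt sd pt β i \ us F2 b) ∩ W2 b).card =
        if β = decide (qq F2 sd pt i b < 0) then (qq F2 sd pt i b).natAbs else 0 := by
      intro β
      split_ifs with hβ
      · have h1 : (qt sd pt β i \ us F2 b) ∩ W2 b =
            (range (qq F2 sd pt i b).natAbs).image (fun k => f (i, b, k)) := by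
          ext v
          rw [mem_inter, mem_sdiff, mem_qt, mem_us, hWm, mem_image]
          constructor
          · rintro ⟨⟨⟨_, h2⟩, _⟩, i', k, h4, h5⟩
            have h6 := (hf3 _ _ _ h4).2.1
            rw [h5, h2] at h6
            subst h6
            exact ⟨k, mem_range.2 ((hJm _ _ _).1 h4).2, h5⟩
          · rintro ⟨k, hk, rfl⟩
            have h4 : (i, b, k) ∈ J := (hJm _ _ _).2 ⟨hb, mem_range.1 hk⟩
            have h6 := hf3 _ _ _ h4
            exact ⟨⟨⟨h6.1.trans hβ.symm, h6.2.1⟩, h6.2.2.1⟩, i, k, h4, rfl⟩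
        rw [h1, card_image_of_injOn, card_range]
        intro k hk k' hk' he
        rw [mem_coe, mem_range] at hk hk'
        have := hf2 (i, b, k) ((hJm _ _ _).2 ⟨hb, hk⟩) (i, b, k') ((hJm _ _ _).2 ⟨hb, hk'⟩) he
        exact congrArg (fun j : Bool × ℕ × ℕ => j.2.2) this
      · rw [card_eq_zero, eq_empty_iff_forall_notMem]
        intro v hv
        rw [mem_inter, mem_sdiff, mem_qt, hWm] at hv
        obtain ⟨⟨⟨h1, h2⟩, _⟩, i', k, h4, h5⟩ := hv
        have h6 := hf3 _ _ _ h4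
        rw [h5] at h6
        have h7 : i = i' := h2.symm.trans h6.2.1
        subst h7
        exact hβ (h1.symm.trans h6.1)
    have h1 : ∀ β, ((qt sd pt β i \ us F2 b) \ W2 b).card +
        ((qt sd pt β i \ us F2 b) ∩ W2 b).card = (qt sd pt β i \ us F2 b).card :=
      fun β => card_sdiff_add_card_inter _ _
    have h2 := h1 false
    have h3 := h1 true
    rw [key] at h2 h3
    have h4 : qq F2 sd pt i b = ((qt sd pt false i \ us F2 b).card : ℤ) -
      ((qt sd pt true i \ us F2 b).card : ℤ) := rfl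
    by_cases hn : qq F2 sd pt i b < 0
    · rw [decide_eq_true hn] at h2 h3
      rw [if_neg (by simp)] at h2
      rw [if_pos rfl] at h3
      omega
    · rw [decide_eq_false hn] at h2 h3
      rw [if_neg (by simp)] at h3
      rw [if_pos rfl] at h2
      omega


section core
variable {K : ℕ}
variable {G : SimpleGraph V} {d : ℕ} {C g ρ π κ θ θS : ℝ} {sd pt : V → Bool}
  {Q : Bool → Finset ℕ} {P2 : Finset ℕ} {F : V → Finset ℕ}

theorem LIK.of3 (h : LI3 G d C ρ π κ θ (g / 100) sd pt Q P2 F) (hθg : 100 * θ ≤ g) :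
    LIK ⌊θ * d⌋₊ G d C ρ π κ (g / 100) sd pt Q P2 F := by
  have hdR : (0 : ℝ) ≤ d := Nat.cast_nonneg d
  have hθd : θ * d ≤ g / 100 * d := mul_le_mul_of_nonneg_right (by linarith) hdR
  have hsub : ∀ i, ∀ B ⊆ Q (!i) ∪ P2, |((∑ b ∈ B, sgp F sd pt i b : ℤ) : ℝ)| ≤ g / 100 * d := by
    intro i B hB
    push_cast
    refine (abs_sum_le_sum_abs _ _).trans ?_
    refine le_trans ?_ (h.sl1 i)
    exact sum_le_sum_of_subset_of_nonneg hB fun _ _ _ => abs_nonneg _
  refine ⟨h.VC, h.Flt, fun v => (h.Fx v).trans hθd, fun b => (h.load b).trans hθd, h.Qlt, h.Plt,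
    h.QQ, h.QP, h.Qc, h.Pc, h.FQ, ?_, fun i => hsub i _ subset_union_right,
    fun i => hsub i _ subset_union_left, h.cutG, h.cutP⟩
  intro i b hb
  have h1 := h.sgQ i b hb
  have h2 : ((sgp F sd pt i b).natAbs : ℝ) ≤ θ * d := by
    rw [Nat.cast_natAbs]
    push_cast
    exact h1
  have h3 := Nat.le_floor h2
  rw [← Int.natCast_natAbs]
  exact_mod_cast h3

theorem LN.mono3 {θ' : ℝ} (h : LN G d g ρ θ sd pt F) (hθ : θ ≤ θ') : LN G d g ρ θ' sd pt F :=
  ⟨h.Vl, h.deg, fun v β i => (h.dgp v β i).trans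
    (mul_le_mul_of_nonneg_right hθ (Nat.cast_nonneg d)), h.siz, h.nbi⟩

/-- stage A: input -/
theorem stageA3 (hI : LI3 G d C ρ π κ θ (g / 100) sd pt Q P2 F) (hN : LN G d g ρ θ sd pt F)
    (hsm : ∀ i, |((∑ b ∈ Q (!i) ∪ P2, sgp F sd pt i b : ℤ) : ℝ)| ≤ θ * d)
    (hθ : 0 < θ) (hθS : 8 * θ ≤ θS) (hθg : 100 * θ ≤ g) (hg : 0 < g)
    (hgd : 100 ≤ g * d) (hSd : 100 ≤ θS * d) :
    ∃ W : ℕ → Finset V, SI G ⊥ d (d + 1) ⌊θS * d⌋₊ C 4 π κ θS sd pt Q P2 F W ∧
      (∀ b, ∀ v ∈ W b, b ∈ PP d Q P2 ∧ b ∉ F v) ∧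
      (∀ b ∈ PP d Q P2, Even ((univ.filter fun v => b ∈ F v ∨ v ∈ W b)ᶜ).card) ∧
      ∀ β i, 4 * (qt sd pt β i ∩ (PP d Q P2).biUnion W).card ≤ (PP d Q P2).card + 3 := by
  have hPc := PPc d Q P2
  have hdR : (0 : ℝ) ≤ d := Nat.cast_nonneg d
  have hθd : 100 * (θ * d) ≤ g * d := by nlinarith
  have hθd8 : 8 * (θ * d) ≤ θS * d := by nlinarith
  have hθd0 : 0 ≤ θ * d := by positivity
  have hVl := hN.Vl
  have hVpos : 0 < Fintype.card V := by
    have : (0 : ℝ) < Fintype.card V := by nlinarith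
    exact_mod_cast this
  have : Nonempty V := Fintype.card_pos_iff.1 hVpos
  have hsz : ∀ β i, ∀ b ∈ PP d Q P2,
      (PP d Q P2).card + 3 ≤ 4 * (qt sd pt β i \ us F b).card := by
    intro β i b _
    have h1 := hN.siz β i
    rw [qtr_qt] at h1
    have h2 := hI.load b
    have h3 : (qt sd pt β i).card ≤ (qt sd pt β i \ us F b).card + (us F b).card := by
      have := le_card_sdiff (us F b) (qt sd pt β i)
      omega
    have h4 : ((PP d Q P2).card : ℝ) ≤ d + 2 := by exact_mod_cast hPc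
    have h5 : (4 * (qt sd pt β i).card : ℝ) = Fintype.card V := by exact_mod_cast h1
    have h6 : ((qt sd pt β i).card : ℝ) ≤ (qt sd pt β i \ us F b).card + (us F b).card := by
      exact_mod_cast h3
    have h7 : ((PP d Q P2).card + 3 : ℝ) ≤ 4 * (qt sd pt β i \ us F b).card := by nlinarith
    exact_mod_cast h7
  obtain ⟨W, w1, w2, w3, w4, w5, w6⟩ := miss1 sd pt (PP d Q P2) F hsz
  refine ⟨W, ?_, w1, w3, w6⟩
  have hSG := mkSG (LIK.of3 hI hθg) (LN.mono3 hN (by linarith)) w1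
  refine ⟨Or.inr rfl, hSG.deg, hI.VC, ?_, ?_, ?_, hI.Qlt, hI.Plt, hI.QQ, hI.QP, hI.Qc, hI.Pc,
    ?_, ?_, ?_, ?_, w4, ?_, ?_⟩
  · have : (d : ℝ) + 2 ≤ Fintype.card V := by nlinarith
    exact_mod_cast this
  · intro v
    have := hI.Fx v
    linarith
  · intro b
    have := hI.load b
    unfold us at this
    linarith
  · intro v
    rw [MP_db9399_da.helper46.dg_crs]
    have := hN.dgp v (!(sd v)) (pt v)
    linarith
  · intro v w h
    exact absurd h (by simp)
  · intro v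
    unfold dg
    simp
  · intro b _
    have h1 : ((W b).card : ℝ) ≤ 1 := by exact_mod_cast w2 b
    linarith
  · intro i
    rw [sgs hSG i]
    set X : ℤ := ∑ v ∈ univ.filter (fun v => pt v = i), sgv (sd v) *
      (((PP d Q P2).filter fun b => v ∈ W b).card : ℤ) with hX
    have h2 := hsm i
    rw [union_comm] at h2
    have h4 : |(X : ℝ)| ≤ 1 := by exact_mod_cast w5 i
    set Y := ∑ b ∈ P2 ∪ Q (!i), sgp F sd pt i b with hY
    have h5 : ((|-Y + X| : ℤ) : ℝ) ≤ θS * d := by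
      push_cast
      rw [abs_le] at h2 h4 ⊢
      constructor <;> linarith [h2.1, h2.2, h4.1, h4.2]
    have h6 : ((-Y + X).natAbs : ℝ) ≤ θS * d := by
      rw [Nat.cast_natAbs]
      exact h5
    have h7 := Nat.le_floor h6
    rw [← Int.natCast_natAbs]
    exact_mod_cast h7
  · exact Nat.floor_le (by linarith)

/-- stage B: missed vertices -/
theorem stageB3 {U Con2 : SimpleGraph V} {r2 lam ι : ℝ} {W : ℕ → Finset V}
    {Zs : Finset (Finset V)} {L : V → Finset ℕ} {t : V → V → ℕ}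
    (hI : LIK K G d C ρ π κ θ sd pt Q P2 F) (hN : LN G d g ρ θ sd pt F)
    (hsl : ∀ i, ∑ b ∈ Q (!i) ∪ P2, |((sgp F sd pt i b : ℤ) : ℝ)| ≤ g / 100 * d)
    (hθg : 100 * θ ≤ g) (hg : 0 < g) (hlam : 100 * lam ≤ g) (hπ : 200 * π ≤ g)
    (hgd : 100 ≤ g * d) (hSd : 2 * (K + 2 : ℝ) ≤ θS * d)
    (hW : ∀ b, ∀ v ∈ W b, b ∈ PP d Q P2 ∧ b ∉ F v)
    (hWq : ∀ β i, 4 * (qt sd pt β i ∩ (PP d Q P2).biUnion W).card ≤ (PP d Q P2).card + 3)
    (hO : SO G ⊥ U Con2 d κ r2 lam ι sd pt Q P2 F W Zs L t) :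
    ∃ W2 : ℕ → Finset V, S2I U Con2 ⊥ d θS sd pt Q P2 F L W W2 ∧
      ∀ b, ∀ v ∈ W2 b, b ∈ P2 ∪ Q (!(pt v)) ∧ b ∉ F v ∧ b ∉ L v ∧
        v ∉ (PP d Q P2).biUnion W := by
  have hPc := PPc d Q P2
  have hdR : (0 : ℝ) ≤ d := Nat.cast_nonneg d
  have hθd : 100 * (θ * d) ≤ g * d := by nlinarith
  have hld : 100 * (lam * d) ≤ g * d := by nlinarith
  have hπd : 200 * (π * d) ≤ g * d := by nlinarith
  have hVl := hN.Vl
  have hVpos : 0 < Fintype.card V := by
    have : (0 : ℝ) < Fintype.card V := by nlinarith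
    exact_mod_cast this
  have : Nonempty V := Fintype.card_pos_iff.1 hVpos
  have hSG := mkSG hI hN hW
  have hLQ : ∀ i, ∀ b ∈ Q i, ∀ v, b ∉ L v := by
    intro i b hb v hbL
    exact disjoint_left.1 (hI.QP i) hb (hO.LP v hbL)
  have hsL0 : ∀ i, ∀ b ∈ Q (!i), sgp L sd pt i b = 0 := by
    intro i b hb
    rw [sgp_sum]
    rw [filter_eq_empty_iff.2, sum_empty]
    intro v _ h
    exact hLQ _ b hb v h.2
  have hsL : ∀ i, ∀ b ∈ P2 ∪ Q (!i), |sgp L sd pt i b| ≤ 2 := by
    intro i b hb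
    rcases mem_union.1 hb with hb | hb
    · rw [sgp_sum]
      exact hO.Ls b hb i
    · rw [hsL0 i b hb]
      simp
  have hLl : ∀ i, ∀ b ∈ P2 ∪ Q (!i), ((us L b).card : ℝ) ≤ g * d / 100 := by
    intro i b hb
    rcases mem_union.1 hb with hb | hb
    · have := hO.Ll b hb
      unfold us
      linarith
    · have : us L b = ∅ := by
        rw [eq_empty_iff_forall_notMem]
        intro v hv
        exact hLQ _ b hb v (mem_us.1 hv)
      rw [this, card_empty]
      push_cast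
      linarith
  have hl1 : ∀ i, ((∑ b ∈ P2 ∪ Q (!i), (qq (fun v => F v ∪ L v) sd pt i b).natAbs : ℕ) : ℝ) ≤
      g / 100 * d + 4 * (π * d) := by
    intro i
    have h1 := hsl i
    rw [union_comm] at h1
    push_cast
    have h2 : ∀ b ∈ P2 ∪ Q (!i), ((qq (fun v => F v ∪ L v) sd pt i b).natAbs : ℝ) ≤
        |((sgp F sd pt i b : ℤ) : ℝ)| + if b ∈ P2 then 2 else 0 := by
      intro b hb
      rw [Nat.cast_natAbs, qq_sgp _ hSG.eqs, sgp_union hO.LF]
      push_cast
      rw [abs_neg]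
      refine (abs_add_le _ _).trans ?_
      by_cases hb2 : b ∈ P2
      · rw [if_pos hb2]
        have h4 : |((sgp L sd pt i b : ℤ) : ℝ)| ≤ 2 := by exact_mod_cast hsL i b hb
        linarith
      · rw [if_neg hb2]
        have hbQ : b ∈ Q (!i) := by
          rcases mem_union.1 hb with h | h
          · exact absurd h hb2
          · exact h
        rw [hsL0 i b hbQ]
        simp
    have h3 := sum_le_sum h2
    rw [sum_add_distrib] at h3
    have h4 : ∑ b ∈ P2 ∪ Q (!i), (if b ∈ P2 then (2 : ℝ) else 0) ≤ 2 * P2.card := by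
      rw [← sum_filter, sum_const, nsmul_eq_mul, mul_comm]
      have h5 : ((P2 ∪ Q (!i)).filter (fun b => b ∈ P2)).card ≤ P2.card :=
        card_le_card fun b hb => (mem_filter.1 hb).2
      have h6 : (((P2 ∪ Q (!i)).filter (fun b => b ∈ P2)).card : ℝ) ≤ P2.card := by
        exact_mod_cast h5
      linarith
    have h5 := hI.Pc.2
    refine h3.trans ?_
    linarith
  obtain ⟨W2, v1, v2, v3, v4⟩ := missL (K + 2) sd pt (fun i => P2 ∪ Q (!i)) (fun v => F v ∪ L v)
    ((PP d Q P2).biUnion W)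
    (by
      intro i b hb
      have h1 := hsL i b hb
      have h2 := hI.sgQ i b (by rw [union_comm]; exact hb)
      rw [qq_sgp _ hSG.eqs, sgp_union hO.LF]
      rw [abs_le] at h1 h2 ⊢
      push_cast
      omega)
    (by
      intro β i b hb
      have h1 := hN.siz β i
      rw [qtr_qt] at h1
      have h2 := hI.load b
      have h3 := hLl i b hb
      have h4 := hWq β i
      have h5 : (qt sd pt β i).card ≤
          (qt sd pt β i \ (us (fun v => F v ∪ L v) b ∪ (PP d Q P2).biUnion W)).card +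
          ((us F b).card + (us L b).card + (qt sd pt β i ∩ (PP d Q P2).biUnion W).card) := by
        rw [← card_sdiff_add_card_inter (qt sd pt β i)
          (us (fun v => F v ∪ L v) b ∪ (PP d Q P2).biUnion W)]
        refine Nat.add_le_add_left ?_ _
        refine le_trans (card_le_card (t := (us F b ∪ us L b) ∪
          (qt sd pt β i ∩ (PP d Q P2).biUnion W)) ?_) ?_
        · intro v hv
          rw [mem_inter, mem_union, mem_us, mem_union] at hv
          rw [mem_union, mem_union, mem_us, mem_us, mem_inter]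
          rcases hv.2 with h | h
          · exact Or.inl h
          · exact Or.inr ⟨hv.1, h⟩
        · exact (card_union_le _ _).trans (Nat.add_le_add_right (card_union_le _ _) _)
      have h6 := hl1 i
      have h10 : (4 * (qt sd pt β i).card : ℝ) = Fintype.card V := by exact_mod_cast h1
      have h11 : ((4 * (qt sd pt β i ∩ (PP d Q P2).biUnion W).card : ℕ) : ℝ) ≤
          ((PP d Q P2).card + 3 : ℕ) := by exact_mod_cast h4
      have h12 : ((PP d Q P2).card : ℝ) ≤ d + 2 := by exact_mod_cast hPc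
      have h13 : ((qt sd pt β i).card : ℝ) ≤
          (qt sd pt β i \ (us (fun v => F v ∪ L v) b ∪ (PP d Q P2).biUnion W)).card +
          ((us F b).card + (us L b).card + (qt sd pt β i ∩ (PP d Q P2).biUnion W).card) := by
        exact_mod_cast h5
      push_cast at h11
      have h14 : ((∑ b' ∈ P2 ∪ Q (!i), (qq (fun v => F v ∪ L v) sd pt i b').natAbs : ℕ) : ℝ) ≤
        (qt sd pt β i \ (us (fun v => F v ∪ L v) b ∪ (PP d Q P2).biUnion W)).card := by
        refine h6.trans ?_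
        linarith
      exact_mod_cast h14)
  have hv : ∀ b, ∀ v ∈ W2 b, b ∈ P2 ∪ Q (!(pt v)) ∧ b ∉ F v ∧ b ∉ L v ∧
        v ∉ (PP d Q P2).biUnion W := by
    intro b v hv
    have h1 := v1 b v hv
    rw [mem_union (t := L v), not_or] at h1
    exact ⟨h1.1, h1.2.1.1, h1.2.1.2, h1.2.2⟩
  refine ⟨W2, ⟨hSG.Flt, hI.FQ, hSG.eqs, ?_, hSG.WF, ?_, ?_, ?_, v3, ?_⟩, hv⟩
  · intro i
    have h1 := hN.siz false i
    have h2 : (qtr sd pt false i).card ≤ (pr pt i).card := by
      refine card_le_card fun v hv => ?_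
      rw [qtr_qt, mem_qt] at hv
      unfold pr
      rw [mem_filter]
      exact ⟨mem_univ _, hv.2⟩
    omega
  · intro v w h
    exact absurd h (by simp)
  · intro v
    unfold dg
    simp
  · intro b
    have h1 : ((W2 b).card : ℝ) ≤ 2 * (K + 2) := by exact_mod_cast v2 b
    linarith
  · intro i b hb
    have h1 : ∀ β, (qt sd pt β i \ univ.filter fun v => b ∈ F v ∨ b ∈ L v ∨ v ∈ W2 b) =
        ((qt sd pt β i \ us (fun v => F v ∪ L v) b) \ W2 b) := by
      intro β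
      ext v
      simp only [mem_sdiff, mem_filter, mem_univ, true_and, mem_us, mem_union, not_or]
      tauto
    rw [h1, h1]
    exact v4 i b hb

end core

theorem locn3 (hSTA : Stmt_STA.{u}) (hSTB : Stmt_STB.{u}) (hRN : Stmt_RN.{u})
    (hRP : Stmt_RP.{u}) : Stmt_LOCN3.{u} := by
  intro C g ρ hC hg hρ
  refine ⟨min (g / 200) (1 / 100), by positivity, fun π hπ hπ0 =>
    ⟨min π (1 / 100), by positivity, fun κ hκ hκ0 => ?_⟩⟩
  have hπg : 200 * π ≤ g := by
    have := hπ0.trans (min_le_left _ _)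
    linarith
  have hπ1 : π ≤ 1 / 100 := hπ0.trans (min_le_right _ _)
  have hκπ : κ ≤ π := hκ0.trans (min_le_left _ _)
  have hκ1 : κ ≤ 1 / 100 := hκ0.trans (min_le_right _ _)
  set N2 : ℕ := ⌈1 / κ⌉₊ with hN2
  have hN2κ : 1 ≤ (N2 : ℝ) * κ := by
    have h1 : 1 / κ ≤ (N2 : ℝ) := Nat.le_ceil _
    rwa [div_le_iff₀ hκ] at h1
  have hN2pos : (1 : ℝ) ≤ (N2 : ℝ) := by
    have h1 : 0 < N2 := by
      rw [hN2]
      exact Nat.ceil_pos.2 (by positivity)
    exact_mod_cast h1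
  have hC0 : 0 < C := by linarith
  obtain ⟨ε2, m02, hε2, hRP'⟩ := hRP (4 * C) ρ (1 / N2) (κ / C) (by linarith) hρ (by positivity)
    (by rw [div_le_one (by linarith)]; exact hN2pos) (by positivity)
  obtain ⟨lam, ι, θB, dB, hlam, hlam1, hι, hθB, hB⟩ := hSTB C 4 π κ ε2 N2 hC (Or.inr rfl) hπ hπ1
    hκ hκ1 hN2κ hε2
  obtain ⟨r1, hr1, hr1', hA⟩ := hSTA C 4 π κ (min lam (g / 100)) ι N2 hC (Or.inr rfl) hπ hπ1
    hκ hκ1 (by positivity) ((min_le_left _ _).trans hlam1) hι hN2κ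
  obtain ⟨ε1, m01, hε1, hRN'⟩ := hRN C (ρ / C ^ 2) r1 (1 / (2 * C)) hC (by positivity) hr1 hr1'
    (by positivity)
  obtain ⟨θA, dA, hθA, hA'⟩ := hA ε1 hε1
  set θS := min θA θB with hθS
  have hθSpos : 0 < θS := lt_min hθA hθB
  set θ := min (min (θS / 8) (g / 100)) (min ε1 ε2 / 2) with hθdef
  have hθpos : 0 < θ := by positivity
  have hθ1 : 8 * θ ≤ θS := by
    have : θ ≤ θS / 8 := (min_le_left _ _).trans (min_le_left _ _)
    linarith
  have hθ2 : 100 * θ ≤ g := by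
    have : θ ≤ g / 100 := (min_le_left _ _).trans (min_le_right _ _)
    linarith
  have hθ3 : θ ≤ ε1 / 2 := by
    have h1 : θ ≤ min ε1 ε2 / 2 := min_le_right _ _
    have h2 : min ε1 ε2 ≤ ε1 := min_le_left _ _
    linarith
  have hθ4 : θ ≤ ε2 / 2 := by
    have h1 : θ ≤ min ε1 ε2 / 2 := min_le_right _ _
    have h2 : min ε1 ε2 ≤ ε2 := min_le_right _ _
    linarith
  refine ⟨θ, dA + dB + m01 + m02 + ⌈100 / g⌉₊ + ⌈100 / θS⌉₊ + ⌈2 / ε1⌉₊, hθpos, ?_⟩
  intro V _ G d sd pt Q P2 F hd hI3 hN hsm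
  have hI := LIK.of3 hI3 hθ2
  have hNg : LN G d g ρ (g / 100) sd pt F := LN.mono3 hN (by linarith)
  have hdR : (0 : ℝ) ≤ d := Nat.cast_nonneg d
  have hgd : 100 ≤ g * d := by
    have h1 : 100 / g ≤ (d : ℝ) := (Nat.le_ceil _).trans (by exact_mod_cast (by omega))
    rw [div_le_iff₀ hg] at h1
    linarith
  have hSd : 100 ≤ θS * d := by
    have h1 : 100 / θS ≤ (d : ℝ) := (Nat.le_ceil _).trans (by exact_mod_cast (by omega))
    rw [div_le_iff₀ hθSpos] at h1
    linarith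
  have hθ0 : 0 ≤ θ * d := by positivity
  have hK2 : (⌊θ * d⌋₊ : ℝ) ≤ θ * d := Nat.floor_le hθ0
  have hSK : 2 * (((⌊θ * d⌋₊ : ℕ) : ℝ) + 2) ≤ θS * d := by
    have h1 : 8 * θ * d ≤ θS * d := mul_le_mul_of_nonneg_right hθ1 hdR
    linarith
  have hed : 2 ≤ ε1 * d := by
    have h1 : 2 / ε1 ≤ (d : ℝ) := (Nat.le_ceil _).trans (by exact_mod_cast (by omega))
    rw [div_le_iff₀ hε1] at h1
    linarith
  have hVd : (d : ℝ) ≤ Fintype.card V := by
    have := hN.Vl
    nlinarith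
  have hVdN : d ≤ Fintype.card V := by exact_mod_cast hVd
  obtain ⟨W, hSI, hW, hpar, hWq⟩ := stageA3 (θS := θS) hI3 hN hsm hθpos hθ1 hθ2 hg hgd hSd
  have hRO : RO G (fun D => Even (Dᶜ).card) r1 (1 / (2 * C)) ε1 := by
    refine hRN' V G d (by omega) hI.VC ?_ ?_ ?_
    · intro v
      have h1 : (dg G v univ : ℝ) + (F v).card = d + 1 := by
        rw [← nb_dg]
        exact_mod_cast hN.deg v
      have h2 := hI3.Fx v
      have h3 : (0 : ℝ) ≤ (F v).card := Nat.cast_nonneg _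
      have h4 : θ * d ≤ ε1 / 2 * d := mul_le_mul_of_nonneg_right hθ3 hdR
      have h5 : ε1 * d ≤ ε1 * Fintype.card V := mul_le_mul_of_nonneg_left hVd hε1.le
      rw [abs_le]
      constructor <;> linarith
    · intro S
      have h1 := hI.cutG S
      rw [cut_ee, compl_eq_univ_sdiff]
      refine le_trans ?_ h1
      have h2 : ρ / C ^ 2 ≤ ρ := div_le_self hρ.le (by nlinarith)
      have h3 : (0 : ℝ) ≤ (S.card : ℝ) * ((univ \ S).card : ℝ) := by positivity
      nlinarith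
    · intro S
      have h1 := hN.nbi S
      rw [nbi_ee, nbi_ee']
      refine le_trans ?_ h1
      rw [div_mul_eq_mul_div, div_le_iff₀ (by positivity)]
      have h2 := hI.VC
      have h3 : (Fintype.card V : ℝ) ^ 2 ≤ (C * d) ^ 2 :=
        pow_le_pow_left₀ (Nat.cast_nonneg _) h2 2
      calc ρ * (Fintype.card V : ℝ) ^ 2 ≤ ρ * (C * d) ^ 2 :=
            mul_le_mul_of_nonneg_left h3 hρ.le
        _ = ρ * (d : ℝ) ^ 2 * C ^ 2 := by ring
  obtain ⟨U, Con2, L, t, hSO⟩ := hA' V G ⊥ d (d + 1) ⌊θS * d⌋₊ sd pt Q P2 F W ∅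
    (fun D => Even (Dᶜ).card) (by omega) (by simp) (SI.mono hSI (min_le_left _ _)) hRO hpar
  obtain ⟨W2, hS2, hW2⟩ := stageB3 (θS := θS) hI hNg hI3.sl1 (by linarith) hg
    (by
      have := min_le_right lam (g / 100)
      linarith) hπg hgd hSK hW hWq hSO
  have hROP : ROP (crs G sd pt) sd pt (1 / N2) (κ / C) ε2 := by
    refine hRP' V (crs G sd pt) sd pt (d / 4) (by omega) ?_ (fun v w h => h.2) hS2.prl ?_ ?_
    · have := hI.VC
      linarith
    · intro v
      rw [MP_db9399_da.helper46.dg_crs]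
      have h2 := hN.dgp v (!(sd v)) (pt v)
      have h4 : θ * d ≤ ε2 / 2 * d := mul_le_mul_of_nonneg_right hθ4 hdR
      have h5 : ε2 * d ≤ ε2 * Fintype.card V := mul_le_mul_of_nonneg_left hVd hε2.le
      have h6 : 0 ≤ ε2 * d := by positivity
      refine h2.trans ?_
      linarith
    · intro i S hS
      have hS' : S ⊆ prt pt i := by
        intro v hv
        have := hS hv
        unfold pr at this
        unfold prt
        exact this
      have h1 := hI.cutP i S hS'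
      rw [cut_crs G sd pt i S hS']
      unfold prt at h1
      unfold pr
      exact h1
  have hS2' : S2I U Con2 ⊥ d θB sd pt Q P2 F L W W2 := by
    have h1 : θS * d ≤ θB * d := mul_le_mul_of_nonneg_right (min_le_right _ _) hdR
    exact ⟨hS2.Flt, hS2.FQ, hS2.eqs, hS2.prl, hS2.WF, hS2.NU, hS2.Nm,
      fun b => (hS2.Wc b).trans h1, hS2.W1, hS2.bal⟩
  obtain ⟨R, t2, _, hcol⟩ := hB V G ⊥ U Con2 ⊥ d (d + 1) ⌊θS * d⌋₊ sd pt Q P2 F L W W2 ∅ t
    (by omega) (SI.mono hSI (min_le_right _ _)) (SO.mono hSO (min_le_left _ _)) hS2' hROP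
  exact lastN hI hNg hW hSI.W1 hSO hS2 hW2 hcol

theorem stmt_LOCN3 : Stmt_LOCN3.{u} :=
  locn3
    (MP_db9399_da_helper72.stmt_STA MP_db9399_da_helper73.stmt_SPLIT
      MP_db9399_da_helper22.stmt_LAM)
    MP_db9399_da_helper93.stmt_STB
    (MP_db9399_da_helper93.stmt_RN MP_db9399_bp_helper22.stmt_PERM)
    (MP_db9399_da_helper49.stmt_RP
      (MP_db9399_da_helper93.stmt_RB MP_db9399_bp_helper22.stmt_PERM))

end Pool.Agent.Work.MP_db9399_iv_helper72
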