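import Pool.Agent.Work.MP_db9399_da_helper72.MIS2K
import Pool.Agent.Work.MP_db9399_da_helper72.LOCB
import Pool.Agent.Work.MP_db9399_iv_helper72.Mid3

/-!
# Block MIS1C: the rounds of `P1` which are not balanced by `T1` (helper72)
-/

set_option autoImplicit false

namespace Pool.Agent.Work.MP_db9399_iv_helper72

open Finset Classical
open Pool.Agent.Work.MP_db9399_da_helper72
open Pool.Agent.Work.MP_db9399_da_helper72.MIS2KAux
open Pool.Agent.Work.MP_db9399_all (nb)
open Pool.Agent.Work.MP_db9399_lt (us)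
open Pool.Agent.Work.MP_db9399_da

universe u

section
variable {V : Type u} [Fintype V]

/-- Result of MIS1C. -/
structure M1C (G N0 : SimpleGraph V) (d : ℕ) (θ : ℝ) (sd pt : V → Bool)
    (Q : Bool → Finset ℕ) (P2 : Finset ℕ) (F : V → Finset ℕ) (W : ℕ → Finset V)
    (T1 T2 Tp Pf : Finset V) (c1 : V → ℕ) : Prop where
  WF : ∀ b ∈ PP d Q P2, ∀ v ∈ W b, b ∉ F v
  Wc : ∀ b ∈ PP d Q P2, ((W b).card : ℝ) ≤ 3 * (θ * d)
  bal : ∀ b ∈ PP d Q P2, (sid sd false \ univ.filter fun v => b ∈ F v ∨ v ∈ W b).card =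
      (sid sd true \ univ.filter fun v => b ∈ F v ∨ v ∈ W b).card
  one : ∀ b ∈ PP d Q P2, ∀ b' ∈ PP d Q P2, ∀ v, v ∈ W b → v ∈ W b' → b = b'
  TPW : ∀ v, (v ∈ T1 ∪ Pf ↔ ∃ b ∈ PP d Q P2, v ∈ W b)
  T1W : ∀ v ∈ T1, c1 v ∈ PP d Q P2 ∧ v ∈ W (c1 v)
  TP : Disjoint T1 Pf
  T2T : Disjoint T2 Pf
  Pfc : (Pf.card : ℝ) ≤ 2 * (θ * d)
  Tp2 : Tp ⊆ T2
  Tpc : (Tp.card : ℝ) ≤ θ * d
  N0a : ∀ v w, N0.Adj v w → G.Adj v w ∧ pt v = pt w ∧
    ((v ∈ Pf ∧ w ∈ T1 ∪ Tp) ∨ (w ∈ Pf ∧ v ∈ T1 ∪ Tp))
  N0m : ∀ v, dg N0 v univ ≤ 1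
  N0p : ∀ v ∈ Pf, ∃ w ∈ T1 ∪ Tp, N0.Adj v w

variable {G : SimpleGraph V} {d : ℕ} {ρ θ : ℝ}
  {sd pt : V → Bool} {Q : Bool → Finset ℕ} {P2 : Finset ℕ} {F : V → Finset ℕ} {c0 c1 : V → ℕ}
  {T1 T2 : Finset V}

/-- events of the side `β` -/
theorem side1 [Nonempty V] (hB : LB3 G d ρ θ sd pt Q P2 F c0 c1 T1 T2)
    (hl : ∀ b, ((us F b).card : ℝ) ≤ θ * d) (hρ : 2 * θ < ρ) (hd : 0 < (d : ℝ)) (β : Bool) :
    ∃ x y : (Σ _ : ℕ, ℕ) → V,
      (∀ e ∈ (P1 d Q P2).sigma (fun b => range (need (Fo T1 c1 F) sd β b)),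
        ∀ e' ∈ (P1 d Q P2).sigma (fun b => range (need (Fo T1 c1 F) sd β b)),
          (x e = x e' → e = e') ∧ (y e = y e' → e = e')) ∧
      ∀ e ∈ (P1 d Q P2).sigma (fun b => range (need (Fo T1 c1 F) sd β b)),
        x e ∈ T1 ∪ T2 ∧ sd (x e) = (!β) ∧ sd (y e) = β ∧ pt (x e) = pt (y e) ∧ G.Adj (x e) (y e) ∧
        y e ∉ T1 ∪ T2 ∧ e.1 ∉ F (y e) := by
  obtain ⟨E, hE⟩ : ∃ E : Finset (Σ _ : ℕ, ℕ),
    E = (P1 d Q P2).sigma (fun b => range (need (Fo T1 c1 F) sd β b)) := ⟨_, rfl⟩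
  have hEc : E.card = ∑ b ∈ P1 d Q P2, need (Fo T1 c1 F) sd β b := by
    rw [hE, card_sigma]
    simp only [card_range]
  obtain ⟨x, hx1, hx2⟩ := exists_inj E ((T1 ∪ T2) ∩ sid sd (!β)) (by rw [hEc]; exact hB.EX β)
  obtain ⟨y, hy1, hy2⟩ := greedy' E (fun e v => v ∈ (nb G (x e) ∩ prt pt (pt (x e))) \ (T1 ∪ T2) ∧
      e.1 ∉ F v) (by
    intro e he S' hS' _ g _
    have h1 := hB.unm (x e)
    have h2 : ((us F e.1 ∪ S'.image g).card : ℝ) ≤ 2 * (θ * d) := by
      have h3 := card_union_le (us F e.1) (S'.image g)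
      have h4 : (S'.image g).card ≤ E.card := card_image_le.trans (card_le_card hS')
      have h5 := hB.few β
      rw [← hEc] at h5
      have h6 := hl e.1
      have h7 : ((us F e.1 ∪ S'.image g).card : ℝ) ≤ (us F e.1).card + E.card := by
        exact_mod_cast h3.trans (by omega)
      linarith
    have h3 : (us F e.1 ∪ S'.image g).card <
        ((nb G (x e) ∩ prt pt (pt (x e))) \ (T1 ∪ T2)).card := by
      have h4 : 2 * (θ * (d : ℝ)) < ρ * d := by
        have := mul_lt_mul_of_pos_right hρ hd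
        linarith
      have h5 : ((us F e.1 ∪ S'.image g).card : ℝ) <
        (((nb G (x e) ∩ prt pt (pt (x e))) \ (T1 ∪ T2)).card : ℝ) := by linarith
      exact_mod_cast h5
    obtain ⟨c, hc1, hc2⟩ := exists_out _ _ h3
    rw [mem_union, not_or] at hc2
    refine ⟨c, ⟨hc1, fun h => hc2.1 ((mem_us F e.1 c).2 h)⟩, ?_⟩
    intro t' ht' h
    exact hc2.2 (h ▸ mem_image_of_mem g ht'))
  refine ⟨x, y, ?_, ?_⟩
  · intro e he e' he'
    rw [← hE] at he he'
    refine ⟨hx2 e he e' he', ?_⟩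
    intro h
    by_contra hne
    exact hy2 e he e' he' hne h
  · intro e he
    rw [← hE] at he
    have h1 := hx1 e he
    have h2 := hy1 e he
    rw [mem_inter, sid, mem_filter] at h1
    rw [mem_sdiff, mem_inter, nb, prt, mem_filter, mem_filter] at h2
    have h3 := hB.bip _ _ h2.1.1.1.2
    refine ⟨h1.1, h1.2.2, ?_, h2.1.1.2.2.symm, h2.1.1.1.2, h2.1.2, h2.2⟩
    rw [h1.2.2] at h3
    revert h3
    cases sd (y e) <;> cases β <;> simp

/-- missed vertices of type P in the rounds of `P1` -/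
noncomputable def wq (F' : V → Finset ℕ) (sd : V → Bool) (d : ℕ) (Q : Bool → Finset ℕ)
    (P2 : Finset ℕ) (y : Bool → (Σ _ : ℕ, ℕ) → V) (β : Bool) (b : ℕ) : Finset V :=
  if b ∈ P1 d Q P2 then (range (need F' sd β b)).image fun k => y β ⟨b, k⟩ else ∅

theorem mem_wq {F' : V → Finset ℕ} (y : Bool → (Σ _ : ℕ, ℕ) → V) (β : Bool) (b : ℕ) (v : V) :
    v ∈ wq F' sd d Q P2 y β b ↔
      ∃ e ∈ (P1 d Q P2).sigma (fun b => range (need F' sd β b)), e.1 = b ∧ y β e = v := by
  unfold wq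
  constructor
  · intro h
    by_cases hb : b ∈ P1 d Q P2
    · rw [if_pos hb, mem_image] at h
      obtain ⟨k, hk, h⟩ := h
      exact ⟨⟨b, k⟩, mem_sigma.2 ⟨hb, hk⟩, rfl, h⟩
    · rw [if_neg hb] at h
      exact absurd h (notMem_empty v)
  · rintro ⟨⟨b', k⟩, he, h1, h2⟩
    have h3 := mem_sigma.1 he
    have h4 : b' = b := h1
    subst h4
    rw [if_pos h3.1, mem_image]
    exact ⟨k, h3.2, h2⟩

theorem mis1c [Nonempty V] (hB : LB3 G d ρ θ sd pt Q P2 F c0 c1 T1 T2)
    (hl : ∀ b, ((us F b).card : ℝ) ≤ θ * d) (hρ : 2 * θ < ρ) (hd : 0 < (d : ℝ)) :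
    ∃ (W : ℕ → Finset V) (Tp Pf : Finset V) (N0 : SimpleGraph V),
      M1C G N0 d θ sd pt Q P2 F W T1 T2 Tp Pf c1 := by
  choose x y h1 h2 using side1 hB hl hρ hd
  obtain ⟨F', hF'⟩ : ∃ F' : V → Finset ℕ, F' = Fo T1 c1 F := ⟨_, rfl⟩
  rw [← hF'] at h1 h2
  have hwq : ∀ β b v, v ∈ wq F' sd d Q P2 y β b → b ∈ P1 d Q P2 ∧ sd v = β ∧ v ∉ T1 ∧ v ∉ T2 ∧
      b ∉ F v := by
    intro β b v hv
    rw [mem_wq] at hv
    obtain ⟨e, he, rfl, rfl⟩ := hv
    have h5 := h2 β e he
    have h6 := h5.2.2.2.2.2.1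
    rw [mem_union, not_or] at h6
    exact ⟨(mem_sigma.1 he).1, h5.2.2.1, h6.1, h6.2, h5.2.2.2.2.2.2⟩
  obtain ⟨W, hW⟩ : ∃ W : ℕ → Finset V, ∀ b v, v ∈ W b ↔ (v ∈ T1 ∧ c1 v = b) ∨
      ∃ β, v ∈ wq F' sd d Q P2 y β b := by
    refine ⟨fun b => (T1.filter fun v => c1 v = b) ∪ (wq F' sd d Q P2 y false b ∪
      wq F' sd d Q P2 y true b), ?_⟩
    intro b v
    simp only [mem_union, mem_filter, Bool.exists_bool]
  obtain ⟨Pf, hPf⟩ : ∃ Pf : Finset V, ∀ v, v ∈ Pf ↔ ∃ β, ∃ e ∈ (P1 d Q P2).sigma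
      (fun b => range (need F' sd β b)), y β e = v := by
    refine ⟨((P1 d Q P2).sigma (fun b => range (need F' sd false b))).image (y false) ∪
      ((P1 d Q P2).sigma (fun b => range (need F' sd true b))).image (y true), ?_⟩
    intro v
    simp only [mem_union, mem_image, Bool.exists_bool]
  obtain ⟨Tp, hTp⟩ : ∃ Tp : Finset V, Tp = (((P1 d Q P2).sigma (fun b =>
      range (need F' sd true b))).image (x true)).filter (fun v => v ∈ T2) := ⟨_, rfl⟩
  have hxT : ∀ β, ∀ e ∈ (P1 d Q P2).sigma (fun b => range (need F' sd β b)),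
      x β e ∈ T1 ∪ Tp := by
    intro β e he
    have h3 := h2 β e he
    rcases mem_union.1 h3.1 with h | h
    · exact mem_union_left _ h
    · have h4 := (hB.c2P _ h).1
      have h5 : β = true := by
        have h6 := h3.2.1
        rw [h4] at h6
        cases β
        · exact absurd h6 (by simp)
        · rfl
      subst h5
      refine mem_union_right _ ?_
      rw [hTp, mem_filter]
      exact ⟨mem_image_of_mem _ he, h⟩
  have hPfW : ∀ v, v ∈ Pf ↔ ∃ β, ∃ b, v ∈ wq F' sd d Q P2 y β b := by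
    intro v
    rw [hPf]
    constructor
    · rintro ⟨β, e, he, h⟩
      exact ⟨β, e.1, (mem_wq y β e.1 v).2 ⟨e, he, rfl, h⟩⟩
    · rintro ⟨β, b, h⟩
      obtain ⟨e, he, _, h⟩ := (mem_wq y β b v).1 h
      exact ⟨β, e, he, h⟩
  obtain ⟨N0, aN0⟩ : ∃ N0 : SimpleGraph V, ∀ v w, N0.Adj v w ↔ ∃ β, ∃ e ∈ (P1 d Q P2).sigma
      (fun b => range (need F' sd β b)), (v = x β e ∧ w = y β e) ∨ (w = x β e ∧ v = y β e) := ⟨
    { Adj := fun v w => ∃ β, ∃ e ∈ (P1 d Q P2).sigma
        (fun b => range (need F' sd β b)), (v = x β e ∧ w = y β e) ∨ (w = x β e ∧ v = y β e)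
      symm := ⟨fun v w ⟨β, e, he, h⟩ => ⟨β, e, he, h.symm⟩⟩
      loopless := ⟨fun v ⟨β, e, he, h⟩ => by
        have h3 := (h2 β e he).2.2.2.2.1
        rcases h with h | h
        · exact h3.ne (h.1.symm.trans h.2)
        · exact h3.ne (h.1.symm.trans h.2)⟩ }, fun v w => Iff.rfl⟩
  have hcard : ∀ β, ((((P1 d Q P2).sigma (fun b => range (need F' sd β b))).card : ℕ) : ℝ) ≤
      θ * d := by
    intro β
    rw [card_sigma]
    simp only [card_range]
    rw [hF']
    exact hB.few β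
  have hFo : ∀ b v, v ∈ us F' b ↔ b ∈ F v ∨ (v ∈ T1 ∧ c1 v = b) := by
    intro b v
    rw [mem_us, hF']
    unfold Fo
    by_cases h : v ∈ T1
    · rw [if_pos h, mem_insert]
      constructor
      · rintro (h3 | h3)
        · exact Or.inr ⟨h, h3.symm⟩
        · exact Or.inl h3
      · rintro (h3 | h3)
        · exact Or.inr h3
        · exact Or.inl h3.2.symm
    · rw [if_neg h]
      constructor
      · exact Or.inl
      · rintro (h3 | h3)
        · exact h3
        · exact absurd h3.1 h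
  refine ⟨W, Tp, Pf, N0, ?_, ?_, ?_, ?_, ?_, ?_, ?_, ?_, ?_, ?_, ?_, ?_, ?_, ?_⟩
  · -- WF
    intro b _ v hv
    rcases (hW b v).1 hv with ⟨h3, rfl⟩ | ⟨β, h3⟩
    · exact hB.c1F v (mem_union_left _ h3)
    · exact (hwq β b v h3).2.2.2.2
  · -- Wc
    intro b hb
    have h3 : W b ⊆ (T1.filter fun v => c1 v = b) ∪ (wq F' sd d Q P2 y false b ∪
        wq F' sd d Q P2 y true b) := by
      intro v hv
      rw [mem_union, mem_union, mem_filter]
      rcases (hW b v).1 hv with h | ⟨β, h⟩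
      · exact Or.inl h
      · cases β
        · exact Or.inr (Or.inl h)
        · exact Or.inr (Or.inr h)
    have h4 : ∀ β, ((wq F' sd d Q P2 y β b).card : ℝ) ≤ θ * d := by
      intro β
      refine le_trans ?_ (hcard β)
      have h5 : (wq F' sd d Q P2 y β b).card ≤ need F' sd β b := by
        unfold wq
        rw [if_pos (show b ∈ P1 d Q P2 from hb)]
        refine card_image_le.trans ?_
        rw [card_range]
      have h6 : need F' sd β b ≤ ((P1 d Q P2).sigma (fun b => range (need F' sd β b))).card := by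
        rw [card_sigma]
        simp only [card_range]
        exact single_le_sum (f := fun b => need F' sd β b) (fun _ _ => Nat.zero_le _)
          (show b ∈ P1 d Q P2 from hb)
      exact_mod_cast h5.trans h6
    have h5 := (card_le_card h3).trans ((card_union_le _ _).trans
      (Nat.add_le_add_left (card_union_le _ _) _))
    have h6 : ((W b).card : ℝ) ≤ (T1.filter fun v => c1 v = b).card +
        ((wq F' sd d Q P2 y false b).card + (wq F' sd d Q P2 y true b).card) := by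
      exact_mod_cast h5
    have h7 := hB.T1c b
    have h8 := h4 false
    have h9 := h4 true
    linarith
  · -- bal
    intro b hb
    have key : ∀ β, (sid sd β \ univ.filter fun v => b ∈ F v ∨ v ∈ W b).card +
        (sid sd β ∩ us F' b).card + need F' sd β b = (sid sd β).card := by
      intro β
      have hwc : (wq F' sd d Q P2 y β b).card = need F' sd β b := by
        unfold wq
        rw [if_pos (show b ∈ P1 d Q P2 from hb), card_image_of_injOn, card_range]
        intro k hk k' hk' h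
        rw [mem_coe] at hk hk'
        have h5 := (h1 β ⟨b, k⟩ (mem_sigma.2 ⟨hb, hk⟩) ⟨b, k'⟩ (mem_sigma.2 ⟨hb, hk'⟩)).2 h
        exact eq_of_heq (Sigma.mk.inj h5).2
      have d1 : Disjoint (sid sd β \ univ.filter fun v => b ∈ F v ∨ v ∈ W b)
          (sid sd β ∩ us F' b) := by
        rw [disjoint_left]
        intro v hv hv'
        rw [mem_sdiff, mem_filter] at hv
        rw [mem_inter, hFo] at hv'
        refine hv.2 ⟨mem_univ _, ?_⟩
        rcases hv'.2 with h | h
        · exact Or.inl h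
        · exact Or.inr ((hW b v).2 (Or.inl h))
      have d2 : Disjoint ((sid sd β \ univ.filter fun v => b ∈ F v ∨ v ∈ W b) ∪
          (sid sd β ∩ us F' b)) (wq F' sd d Q P2 y β b) := by
        rw [disjoint_left]
        intro v hv hv'
        have h5 := hwq β b v hv'
        rcases mem_union.1 hv with h | h
        · rw [mem_sdiff, mem_filter] at h
          exact h.2 ⟨mem_univ _, Or.inr ((hW b v).2 (Or.inr ⟨β, hv'⟩))⟩
        · rw [mem_inter, hFo] at h
          rcases h.2 with h | h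
          · exact h5.2.2.2.2 h
          · exact h5.2.2.1 h.1
      rw [← hwc, ← card_union_of_disjoint d1, ← card_union_of_disjoint d2]
      congr 1
      ext v
      rw [mem_union, mem_union, mem_sdiff, mem_inter, hFo, mem_filter]
      constructor
      · rintro ((h | h) | h)
        · exact h.1
        · exact h.1
        · rw [sid, mem_filter]
          exact ⟨mem_univ _, (hwq β b v h).2.1⟩
      · intro h
        by_cases h3 : b ∈ F v ∨ v ∈ W b
        · rcases h3 with h3 | h3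
          · exact Or.inl (Or.inr ⟨h, Or.inl h3⟩)
          · rcases (hW b v).1 h3 with h4 | ⟨β', h4⟩
            · exact Or.inl (Or.inr ⟨h, Or.inr h4⟩)
            · have h5 := (hwq β' b v h4).2.1
              have h6 : sd v = β := by
                rw [sid, mem_filter] at h
                exact h.2
              rw [h5] at h6
              rw [h6] at h4
              exact Or.inr h4
        · exact Or.inl (Or.inl ⟨h, fun h4 => h3 h4.2⟩)
    have h5 := key false
    have h6 := key true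
    have h7 : need F' sd false b = (sid sd true ∩ us F' b).card - (sid sd false ∩ us F' b).card :=
      rfl
    have h8 : need F' sd true b = (sid sd false ∩ us F' b).card - (sid sd true ∩ us F' b).card :=
      rfl
    have h9 : (sid sd false).card = (sid sd true).card := by
      have e : ∀ β, (sid sd β).card = (qtr sd pt β false).card + (qtr sd pt β true).card := by
        intro β
        rw [← card_union_of_disjoint]
        · congr 1
          ext v
          rw [mem_union, mem_qtr, mem_qtr, sid, mem_filter]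
          cases pt v <;> simp
        · rw [disjoint_left]
          intro v h h'
          rw [mem_qtr] at h h'
          have := h.2.symm.trans h'.2
          exact absurd this (by simp)
      rw [e, e, hB.eqs, hB.eqs]
    omega
  · -- one
    intro b _ b' _ v hv hv'
    rcases (hW b v).1 hv with ⟨h3, h4⟩ | ⟨β, h3⟩
    · rcases (hW b' v).1 hv' with ⟨_, h5⟩ | ⟨β', h5⟩
      · exact h4.symm.trans h5
      · exact absurd h3 (hwq β' b' v h5).2.2.1
    · rcases (hW b' v).1 hv' with ⟨h5, _⟩ | ⟨β', h5⟩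
      · exact absurd h5 (hwq β b v h3).2.2.1
      · have h6 : β = β' := (hwq β b v h3).2.1.symm.trans (hwq β' b' v h5).2.1
        subst h6
        obtain ⟨e, he, h7, h8⟩ := (mem_wq y β b v).1 h3
        obtain ⟨e', he', h9, h10⟩ := (mem_wq y β b' v).1 h5
        rw [← h7, ← h9, (h1 β e he e' he').2 (h8.trans h10.symm)]
  · -- TPW
    intro v
    rw [mem_union, hPfW]
    constructor
    · rintro (h | ⟨β, b, h⟩)
      · exact ⟨c1 v, hB.c1P v h, (hW _ v).2 (Or.inl ⟨h, rfl⟩)⟩
      · exact ⟨b, (hwq β b v h).1, (hW _ v).2 (Or.inr ⟨β, h⟩)⟩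
    · rintro ⟨b, _, h⟩
      rcases (hW b v).1 h with h | ⟨β, h⟩
      · exact Or.inl h.1
      · exact Or.inr ⟨β, b, h⟩
  · -- T1W
    intro v hv
    exact ⟨hB.c1P v hv, (hW _ v).2 (Or.inl ⟨hv, rfl⟩)⟩
  · -- TP
    rw [disjoint_left]
    intro v h3 h4
    obtain ⟨β, b, h5⟩ := (hPfW v).1 h4
    exact (hwq β b v h5).2.2.1 h3
  · -- T2T
    rw [disjoint_left]
    intro v h3 h4
    obtain ⟨β, b, h5⟩ := (hPfW v).1 h4
    exact (hwq β b v h5).2.2.2.1 h3
  · -- Pfc
    have h3 : Pf ⊆ ((P1 d Q P2).sigma (fun b => range (need F' sd false b))).image (y false) ∪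
        ((P1 d Q P2).sigma (fun b => range (need F' sd true b))).image (y true) := by
      intro v hv
      obtain ⟨β, e, he, h⟩ := (hPf v).1 hv
      rw [mem_union, mem_image, mem_image]
      cases β
      · exact Or.inl ⟨e, he, h⟩
      · exact Or.inr ⟨e, he, h⟩
    have h4 := (card_le_card h3).trans ((card_union_le _ _).trans
      (Nat.add_le_add card_image_le card_image_le))
    have h5 : (Pf.card : ℝ) ≤ ((P1 d Q P2).sigma (fun b => range (need F' sd false b))).card +
        ((P1 d Q P2).sigma (fun b => range (need F' sd true b))).card := by exact_mod_cast h4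
    have h6 := hcard false
    have h7 := hcard true
    linarith
  · -- Tp2
    intro v hv
    rw [hTp, mem_filter] at hv
    exact hv.2
  · -- Tpc
    refine le_trans ?_ (hcard true)
    rw [hTp]
    exact_mod_cast (card_filter_le _ _).trans card_image_le
  · -- N0a
    intro v w h
    obtain ⟨β, e, he, ⟨rfl, rfl⟩ | ⟨rfl, rfl⟩⟩ := (aN0 v w).1 h
    · have h3 := h2 β e he
      exact ⟨h3.2.2.2.2.1, h3.2.2.2.1, Or.inr ⟨(hPf _).2 ⟨β, e, he, rfl⟩, hxT β e he⟩⟩
    · have h3 := h2 β e he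
      exact ⟨h3.2.2.2.2.1.symm, h3.2.2.2.1.symm, Or.inl ⟨(hPf _).2 ⟨β, e, he, rfl⟩, hxT β e he⟩⟩
  · -- N0m
    intro v
    refine dg_le_one fun a b ha hb => ?_
    obtain ⟨β, e, he, ha⟩ := (aN0 v a).1 ha
    obtain ⟨β', e', he', hb⟩ := (aN0 v b).1 hb
    have h3 := h2 β e he
    have h4 := h2 β' e' he'
    have h5 := h3.2.2.2.2.2.1
    have h6 := h4.2.2.2.2.2.1
    rcases ha with ⟨h7, h8⟩ | ⟨h7, h8⟩
    · rcases hb with ⟨h9, h10⟩ | ⟨h9, h10⟩
      · have hββ : β = β' := by
          have p1 := h3.2.1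
          have p2 := h4.2.1
          rw [← h7] at p1
          rw [← h9, p1] at p2
          cases β <;> cases β' <;> simp_all
        subst hββ
        rw [h8, h10, (h1 β e he e' he').1 (h7.symm.trans h9)]
      · refine absurd ?_ h6
        rw [← h10, h7]
        exact h3.1
    · rcases hb with ⟨h9, h10⟩ | ⟨h9, h10⟩
      · refine absurd ?_ h5
        rw [← h8, h9]
        exact h4.1
      · have hββ : β = β' := by
          have p1 := h3.2.2.1
          have p2 := h4.2.2.1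
          rw [← h8] at p1
          rw [← h10] at p2
          exact p1.symm.trans p2
        subst hββ
        rw [h7, h9, (h1 β e he e' he').2 (h8.symm.trans h10)]
  · -- N0p
    intro v hv
    obtain ⟨β, e, he, rfl⟩ := (hPf v).1 hv
    exact ⟨x β e, hxT β e he, (aN0 _ _).2 ⟨β, e, he, Or.inr ⟨rfl, rfl⟩⟩⟩

end

end Pool.Agent.Work.MP_db9399_iv_helper72
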